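import Pool.Agent.Lib.H12L.Defs

/-! # H12L, chunk C1 (M): division by the sine -/

namespace H12L

/-- (C1a, M) PROOF. `G z = F z / sin (π z)` for `z ∉ ℤ`, `G m = deriv F m / (π cos (π m))`. Near an integer `m`:
`F z = (z - m) * dslope F m z`, `sin (π z) = (z - m) * dslope S m z` with `S z = sin (π z)`, and `dslope S m` is not zero near
`m` (value `π cos (π m)` at `m`), so `G = dslope F m / dslope S m` near `m`, differentiable
(`Complex.differentiableOn_dslope`). -/
theorem exists_quotient {F : ℂ → ℂ} (hF : Differentiable ℂ F) (h0 : ∀ m : ℤ, F m = 0) :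
    ∃ G : ℂ → ℂ, Differentiable ℂ G ∧ ∀ z, F z = G z * Complex.sin (Real.pi * z) := by
  classical
  have hpi : (Real.pi : ℂ) ≠ 0 := Complex.ofReal_ne_zero.mpr Real.pi_ne_zero
  set S : ℂ → ℂ := fun z => Complex.sin (Real.pi * z) with hSdef
  have hSd : Differentiable ℂ S := by
    intro z
    exact (Complex.differentiable_sin _).comp z ((differentiableAt_id).const_mul (Real.pi : ℂ))
  have hS0 : ∀ z, S z = 0 → ∃ m : ℤ, z = m := by
    intro z hz
    obtain ⟨k, hk⟩ := Complex.sin_eq_zero_iff.mp hz
    refine ⟨k, ?_⟩
    have h1 : (Real.pi : ℂ) * z = Real.pi * k := by rw [hk]; ring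
    exact mul_left_cancel₀ hpi h1
  have hSm : ∀ m : ℤ, S m = 0 := by
    intro m
    have h1 : S m = Complex.sin ((m : ℂ) * Real.pi) := by
      simp only [hSdef]; rw [mul_comm]
    rw [h1]
    exact Complex.sin_int_mul_pi m
  have hSderiv : ∀ z, HasDerivAt S (Complex.cos (Real.pi * z) * Real.pi) z := by
    intro z
    have h1 : HasDerivAt (fun w : ℂ => (Real.pi : ℂ) * w) (Real.pi : ℂ) z := by
      simpa using (hasDerivAt_id z).const_mul (Real.pi : ℂ)
    exact (Complex.hasDerivAt_sin _).comp z h1
  have hcos : ∀ m : ℤ, deriv S m ≠ 0 := by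
    intro m
    rw [(hSderiv m).deriv]
    refine mul_ne_zero ?_ hpi
    intro hc
    have h2 := Complex.sin_sq_add_cos_sq ((Real.pi : ℂ) * m)
    have h3 : Complex.sin ((Real.pi : ℂ) * m) = 0 := hSm m
    rw [hc, h3] at h2
    norm_num at h2
  refine ⟨fun z => if S z = 0 then deriv F z / deriv S z else F z / S z, ?_, ?_⟩
  · intro z
    by_cases hz : S z = 0
    · obtain ⟨m, rfl⟩ := hS0 z hz
      have hdF : DifferentiableAt ℂ (dslope F m) m :=
        ((Complex.differentiableOn_dslope (Filter.univ_mem)).mpr hF.differentiableOn).differentiableAt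
          Filter.univ_mem
      have hdS : DifferentiableAt ℂ (dslope S m) m :=
        ((Complex.differentiableOn_dslope (Filter.univ_mem)).mpr hSd.differentiableOn).differentiableAt
          Filter.univ_mem
      have hne : dslope S m m ≠ 0 := by
        rw [dslope_same]; exact hcos m
      have hev : ∀ᶠ w in nhds (m : ℂ), dslope S m w ≠ 0 := hdS.continuousAt.eventually_ne hne
      refine (hdF.div hdS hne).congr_of_eventuallyEq ?_
      filter_upwards [hev] with w hw
      by_cases hwm : w = m
      · subst hwm
        simp only [Pi.div_apply]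
        rw [if_pos hz, dslope_same, dslope_same]
      · have h1 : S w = (w - m) * dslope S m w := by
          have := sub_smul_dslope S (m : ℂ) w
          rw [hSm m, sub_zero, smul_eq_mul] at this
          exact this.symm
        have h2 : F w = (w - m) * dslope F m w := by
          have := sub_smul_dslope F (m : ℂ) w
          rw [h0 m, sub_zero, smul_eq_mul] at this
          exact this.symm
        have h3 : w - m ≠ 0 := sub_ne_zero.mpr hwm
        have h4 : S w ≠ 0 := by rw [h1]; exact mul_ne_zero h3 hw
        simp only [Pi.div_apply]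
        rw [if_neg h4, h1, h2, mul_div_mul_left _ _ h3]
    · have hev : ∀ᶠ w in nhds z, S w ≠ 0 := (hSd z).continuousAt.eventually_ne hz
      refine ((hF z).div (hSd z) hz).congr_of_eventuallyEq ?_
      filter_upwards [hev] with w hw
      simp only [Pi.div_apply]
      rw [if_neg hw]
  · intro z
    by_cases hz : S z = 0
    · obtain ⟨m, rfl⟩ := hS0 z hz
      have h1 : Complex.sin ((Real.pi : ℂ) * m) = 0 := hSm m
      rw [h1, h0 m, mul_zero]
    · have h1 : Complex.sin ((Real.pi : ℂ) * z) = S z := rfl
      rw [h1]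
      simp only []
      rw [if_neg hz, div_mul_cancel₀ _ hz]

end H12L
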