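import Pool.Agent.Lib.H12L.Defs

/-! # H12L, chunk C1B (M): division by the sine -/

namespace H12L

theorem c1b_sq (w : ℂ) : ‖Complex.sin w‖ ^ 2 = Real.sin w.re ^ 2 + Real.sinh w.im ^ 2 := by
  rw [Complex.sin_eq, Complex.sq_norm, Complex.normSq_apply]
  have h1 : (Complex.sin w.re * Complex.cosh w.im + Complex.cos w.re * Complex.sinh w.im * Complex.I).re =
      Real.sin w.re * Real.cosh w.im := by
    simp only [Complex.add_re, Complex.mul_re, Complex.mul_im, Complex.I_re, Complex.I_im, Complex.sin_ofReal_re,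
      Complex.sin_ofReal_im, Complex.cosh_ofReal_re, Complex.cosh_ofReal_im, Complex.cos_ofReal_re,
      Complex.cos_ofReal_im, Complex.sinh_ofReal_re, Complex.sinh_ofReal_im]
    ring
  have h2 : (Complex.sin w.re * Complex.cosh w.im + Complex.cos w.re * Complex.sinh w.im * Complex.I).im =
      Real.cos w.re * Real.sinh w.im := by
    simp only [Complex.add_im, Complex.mul_re, Complex.mul_im, Complex.I_re, Complex.I_im, Complex.sin_ofReal_re,
      Complex.sin_ofReal_im, Complex.cosh_ofReal_re, Complex.cosh_ofReal_im, Complex.cos_ofReal_re,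
      Complex.cos_ofReal_im, Complex.sinh_ofReal_re, Complex.sinh_ofReal_im]
    ring
  rw [h1, h2]
  have h3 := Real.sin_sq_add_cos_sq w.re
  have h4 := Real.cosh_sq w.im
  have h5 : Real.cos w.re ^ 2 = 1 - Real.sin w.re ^ 2 := by linarith
  calc Real.sin w.re * Real.cosh w.im * (Real.sin w.re * Real.cosh w.im) +
        Real.cos w.re * Real.sinh w.im * (Real.cos w.re * Real.sinh w.im) =
        Real.sin w.re ^ 2 * Real.cosh w.im ^ 2 + Real.cos w.re ^ 2 * Real.sinh w.im ^ 2 := by ring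
    _ = Real.sin w.re ^ 2 + Real.sinh w.im ^ 2 := by
        rw [h4, h5]
        ring

theorem c1b_re (z : ℂ) : ((Real.pi : ℂ) * z).re = Real.pi * z.re := by
  rw [Complex.re_ofReal_mul]

theorem c1b_im (z : ℂ) : ((Real.pi : ℂ) * z).im = Real.pi * z.im := by
  rw [Complex.im_ofReal_mul]

theorem c1b_abs (y : ℝ) : |Real.sinh (Real.pi * y)| = Real.sinh (Real.pi * |y|) := by
  rcases abs_cases y with ⟨h, h'⟩ | ⟨h, h'⟩
  · rw [h, abs_of_nonneg]
    exact Real.sinh_nonneg_iff.2 (mul_nonneg Real.pi_pos.le h')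
  · rw [h, mul_neg, Real.sinh_neg, abs_of_nonpos]
    exact Real.sinh_nonpos_iff.2 (mul_nonpos_of_nonneg_of_nonpos Real.pi_pos.le h'.le)

/-- (C1b, S) PROOF. `|sin (x + i y)| ^ 2 = sin x ^ 2 + sinh y ^ 2`. For `|z.im| ≥ 1`:
`|sin (π z)| ≥ sinh (π |z.im|) ≥ exp (π |z.im|) / 4`. -/
theorem sin_lower {z : ℂ} (hz : 1 ≤ |z.im|) :
    Real.exp (Real.pi * |z.im|) / 4 ≤ ‖Complex.sin (Real.pi * z)‖ := by
  have h1 := c1b_sq (Real.pi * z)
  rw [c1b_re, c1b_im] at h1
  have h2 : |Real.sinh (Real.pi * z.im)| ≤ ‖Complex.sin (Real.pi * z)‖ := by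
    refine (sq_le_sq₀ (abs_nonneg _) (norm_nonneg _)).1 ?_
    rw [sq_abs, h1]
    nlinarith [sq_nonneg (Real.sin (Real.pi * z.re))]
  rw [c1b_abs] at h2
  refine le_trans ?_ h2
  obtain ⟨x, hx⟩ : ∃ x, x = Real.pi * |z.im| := ⟨_, rfl⟩
  have hx1 : 1 ≤ x := by
    rw [hx]
    nlinarith [Real.pi_gt_three]
  rw [← hx, Real.sinh_eq]
  have h3 : 2 ≤ Real.exp x := by
    have := Real.add_one_le_exp x
    linarith
  have h4 : Real.exp (-x) ≤ 1 := Real.exp_le_one_iff.2 (by linarith)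
  have h5 : Real.exp (-x) * Real.exp x = 1 := by
    rw [← Real.exp_add]
    simp
  have h6 : Real.exp (-x) ≤ 1 / 2 := by
    nlinarith [Real.exp_pos (-x)]
  linarith

/-- (C1c, S) PROOF. If `z.re = m + 1/2`: `|sin (π z)| = cosh (π z.im) ≥ exp (π |z.im|) / 2`. -/
theorem sin_lower_line {z : ℂ} {m : ℤ} (hz : z.re = m + 1 / 2) :
    Real.exp (Real.pi * |z.im|) / 4 ≤ ‖Complex.sin (Real.pi * z)‖ := by
  have h1 := c1b_sq (Real.pi * z)
  rw [c1b_re, c1b_im] at h1
  have h2 : Real.cos (Real.pi * z.re) = 0 := by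
    rw [Real.cos_eq_zero_iff]
    exact ⟨m, by rw [hz]; ring⟩
  have h3 : Real.sin (Real.pi * z.re) ^ 2 = 1 := by
    have := Real.sin_sq_add_cos_sq (Real.pi * z.re)
    rw [h2] at this
    linarith
  have h4 : ‖Complex.sin (Real.pi * z)‖ ^ 2 = Real.cosh (Real.pi * z.im) ^ 2 := by
    rw [h1, h3, Real.cosh_sq]
    ring
  have h5 : ‖Complex.sin (Real.pi * z)‖ = Real.cosh (Real.pi * z.im) := by
    have h6 := Real.cosh_pos (Real.pi * z.im)
    have h7 := norm_nonneg (Complex.sin (Real.pi * z))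
    nlinarith
  rw [h5]
  have h6 : Real.cosh (Real.pi * z.im) = Real.cosh (Real.pi * |z.im|) := by
    rcases abs_cases z.im with ⟨h, -⟩ | ⟨h, -⟩
    · rw [h]
    · rw [h, mul_neg, Real.cosh_neg]
  rw [h6, Real.cosh_eq]
  have h7 := Real.exp_pos (Real.pi * |z.im|)
  have h8 := Real.exp_pos (-(Real.pi * |z.im|))
  linarith

end H12L
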