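import Pool.Agent.Lib.H12L.Defs
import Pool.Agent.Lib.H12L.C1B

/-! # H12L, chunk C2 (M): exponential growth of the quotient -/

namespace H12L

theorem c2_div {F G : ℂ → ℂ} (h : ∀ z, F z = G z * Complex.sin (Real.pi * z)) {C σ : ℝ}
    (hb : ∀ z, ‖F z‖ ≤ C * Real.exp (σ * ‖z‖)) {z : ℂ}
    (hs : Real.exp (Real.pi * |z.im|) / 4 ≤ ‖Complex.sin (Real.pi * z)‖) :
    ‖G z‖ ≤ 4 * C * Real.exp (σ * ‖z‖ - Real.pi * |z.im|) := by
  have h1 := hb z
  rw [h z, norm_mul] at h1
  have h2 : ‖G z‖ * (Real.exp (Real.pi * |z.im|) / 4) ≤ C * Real.exp (σ * ‖z‖) :=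
    (mul_le_mul_of_nonneg_left hs (norm_nonneg _)).trans h1
  have hp := Real.exp_pos (Real.pi * |z.im|)
  rw [Real.exp_sub, ← mul_div_assoc, le_div_iff₀ hp]
  linarith

/-- (C2, M) PROOF. For `|z.im| ≥ 1`: `‖G z‖ = ‖F z‖ / |sin (π z)| ≤ 4 C exp (σ ‖z‖) exp (-π |z.im|)`. On the lines
`z.re = m + 1/2` the same (`sin_lower_line`). For the other `z` (`|z.im| < 1`): maximum principle on the rectangle
`m - 1/2 ≤ re ≤ m + 1/2`, `|im| ≤ 1` containing `z`
(`Complex.norm_le_of_forall_mem_frontier_norm_le`): every boundary point `w` has `‖w‖ ≤ ‖z‖ + 3` and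
`‖G w‖ ≤ 4 C exp (σ ‖w‖)`, and `exp (-π |z.im|) ≥ exp (-π)`. So `C' = 4 C exp (3 σ + π)` works. -/
theorem quotient_growth {F G : ℂ → ℂ} (hG : Differentiable ℂ G)
    (h : ∀ z, F z = G z * Complex.sin (Real.pi * z)) {C σ : ℝ} (hC : 0 ≤ C) (hσ : 0 ≤ σ)
    (hb : ∀ z, ‖F z‖ ≤ C * Real.exp (σ * ‖z‖)) :
    ∃ C' : ℝ, 0 ≤ C' ∧ ∀ z, ‖G z‖ ≤ C' * Real.exp (σ * ‖z‖ - Real.pi * |z.im|) := by
  have hpi := Real.pi_pos
  refine ⟨4 * C * Real.exp (3 * σ + Real.pi), by positivity, fun z => ?_⟩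
  rcases le_or_gt 1 |z.im| with hz | hz
  · refine (c2_div h hb (sin_lower hz)).trans ?_
    apply mul_le_mul_of_nonneg_right _ (Real.exp_pos _).le
    have h1 : (1 : ℝ) ≤ Real.exp (3 * σ + Real.pi) := Real.one_le_exp (by positivity)
    nlinarith
  · set m : ℤ := round z.re with hm
    have hre : |z.re - m| ≤ 1 / 2 := abs_sub_round z.re
    rw [abs_le] at hre
    rw [abs_lt] at hz
    have hmem : z ∈ closure (Set.Ioo ((m : ℝ) - 1 / 2) (m + 1 / 2) ×ℂ Set.Ioo (-1 : ℝ) 1) := by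
      rw [Complex.closure_reProdIm, closure_Ioo (by linarith), closure_Ioo (by norm_num)]
      rw [Complex.mem_reProdIm]
      exact ⟨⟨by linarith, by linarith⟩, ⟨hz.1.le, hz.2.le⟩⟩
    have hbd : Bornology.IsBounded (Set.Ioo ((m : ℝ) - 1 / 2) (m + 1 / 2) ×ℂ Set.Ioo (-1 : ℝ) 1) :=
      (Metric.isBounded_Ioo _ _).reProdIm (Metric.isBounded_Ioo _ _)
    have key : ‖G z‖ ≤ 4 * C * Real.exp (σ * (‖z‖ + 3)) := by
      refine Complex.norm_le_of_forall_mem_frontier_norm_le hbd hG.diffContOnCl ?_ hmem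
      intro w hw
      have e1 : (m : ℝ) - 1 / 2 < m + 1 / 2 := by linarith
      have e2 : (-1 : ℝ) < 1 := by norm_num
      rw [Complex.frontier_reProdIm, closure_Ioo e1.ne, closure_Ioo e2.ne, frontier_Ioo e1, frontier_Ioo e2] at hw
      have hgen : ∀ w : ℂ, |w.re - z.re| ≤ 1 → |w.im - z.im| ≤ 2 →
          Real.exp (Real.pi * |w.im|) / 4 ≤ ‖Complex.sin (Real.pi * w)‖ →
          ‖G w‖ ≤ 4 * C * Real.exp (σ * (‖z‖ + 3)) := by
        intro w h1 h2 h3
        refine (c2_div h hb h3).trans ?_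
        apply mul_le_mul_of_nonneg_left _ (by positivity)
        apply Real.exp_le_exp.2
        have h4 : ‖w‖ ≤ ‖z‖ + 3 := by
          have h5 : ‖w - z‖ ≤ |(w - z).re| + |(w - z).im| := Complex.norm_le_abs_re_add_abs_im _
          have h6 : ‖w‖ ≤ ‖z‖ + ‖w - z‖ := by
            have := norm_add_le z (w - z)
            simpa using this
          rw [Complex.sub_re, Complex.sub_im] at h5
          linarith
        have h7 : 0 ≤ Real.pi * |w.im| := by positivity
        have h8 : σ * ‖w‖ ≤ σ * (‖z‖ + 3) := mul_le_mul_of_nonneg_left h4 hσ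
        linarith
      rcases hw with hw | hw
      · rw [Complex.mem_reProdIm] at hw
        obtain ⟨⟨ha, hb'⟩, hc⟩ := hw
        have hc' : w.im = -1 ∨ w.im = 1 := by simpa using hc
        apply hgen w
        · rw [abs_le]; constructor <;> linarith
        · rw [abs_le]; rcases hc' with hc' | hc' <;> rw [hc'] <;> constructor <;> linarith
        · apply sin_lower
          rcases hc' with hc' | hc' <;> rw [hc'] <;> norm_num
      · rw [Complex.mem_reProdIm] at hw
        obtain ⟨hc, ⟨ha, hb'⟩⟩ := hw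
        have hc' : w.re = m - 1 / 2 ∨ w.re = m + 1 / 2 := by simpa using hc
        apply hgen w
        · rw [abs_le]; rcases hc' with hc' | hc' <;> rw [hc'] <;> constructor <;> linarith
        · rw [abs_le]; constructor <;> linarith
        · rcases hc' with hc' | hc'
          · exact sin_lower_line (m := m - 1) (by rw [hc']; push_cast; ring)
          · exact sin_lower_line (m := m) hc'
    refine key.trans ?_
    rw [mul_assoc (4 * C), ← Real.exp_add]
    apply mul_le_mul_of_nonneg_left _ (by positivity)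
    apply Real.exp_le_exp.2
    have h9 : |z.im| < 1 := abs_lt.2 hz
    nlinarith

end H12L
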