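import Pool.Agent.Lib.H12L.Defs

/-! # H12L, chunk C3 (M): Phragmen-Lindelof in quadrants -/

namespace H12L

open Filter Bornology in
theorem c3_growth {G : ℂ → ℂ} {B M : ℝ} (hexp : ∀ z, ‖G z‖ ≤ B * Real.exp (M * ‖z‖)) (a : ℂ) (S : Set ℂ) :
    ∃ c < (2 : ℝ), ∃ B' : ℝ, (fun z => G z * Complex.exp (-a * z)) =O[cobounded ℂ ⊓ 𝓟 S]
      fun z => Real.exp (B' * ‖z‖ ^ c) := by
  refine ⟨1, by norm_num, M + ‖a‖, Asymptotics.IsBigO.of_bound |B| (Eventually.of_forall fun z => ?_)⟩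
  rw [norm_mul, Complex.norm_exp, Real.rpow_one, Real.norm_of_nonneg (Real.exp_pos _).le]
  have h1 : (-a * z).re ≤ ‖a‖ * ‖z‖ := by
    refine (Complex.re_le_norm _).trans ?_
    rw [norm_mul, norm_neg]
  have h2 : ‖G z‖ ≤ |B| * Real.exp (M * ‖z‖) :=
    (hexp z).trans (mul_le_mul_of_nonneg_right (le_abs_self B) (Real.exp_pos _).le)
  calc ‖G z‖ * Real.exp (-a * z).re ≤ |B| * Real.exp (M * ‖z‖) * Real.exp (‖a‖ * ‖z‖) := by
        gcongr
    _ = |B| * Real.exp ((M + ‖a‖) * ‖z‖) := by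
        rw [mul_assoc, ← Real.exp_add, add_mul]

theorem c3_back {G : ℂ → ℂ} {C : ℝ} {a z : ℂ} (h : ‖G z * Complex.exp (-a * z)‖ ≤ C) :
    ‖G z‖ ≤ C * Real.exp ((a * z).re) := by
  rw [norm_mul, Complex.norm_exp] at h
  have h1 : ‖G z‖ = ‖G z‖ * Real.exp (-a * z).re * Real.exp (a * z).re := by
    rw [mul_assoc, ← Real.exp_add, neg_mul, Complex.neg_re, neg_add_cancel, Real.exp_zero, mul_one]
  rw [h1]
  exact mul_le_mul_of_nonneg_right h (Real.exp_pos _).le

theorem c3_bd {G : ℂ → ℂ} {C t : ℝ} {a z : ℂ} (h : ‖G z‖ ≤ C * Real.exp t) (ht : t = (a * z).re) :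
    ‖G z * Complex.exp (-a * z)‖ ≤ C := by
  rw [norm_mul, Complex.norm_exp, neg_mul, Complex.neg_re, ← ht]
  have h1 : C = C * Real.exp t * Real.exp (-t) := by
    rw [mul_assoc, ← Real.exp_add, add_neg_cancel, Real.exp_zero, mul_one]
  calc ‖G z‖ * Real.exp (-t) ≤ C * Real.exp t * Real.exp (-t) :=
        mul_le_mul_of_nonneg_right h (Real.exp_pos _).le
    _ = C := h1.symm

theorem c3_diff {G : ℂ → ℂ} (hG : Differentiable ℂ G) (a : ℂ) (S : Set ℂ) :
    DiffContOnCl ℂ (fun z => G z * Complex.exp (-a * z)) S :=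
  (hG.mul (differentiable_id.const_mul (-a)).cexp).diffContOnCl

/-- (C3a, M) PROOF. In the first quadrant consider `G z * exp (-(s + i η) z)`: `|exp (-(s + i η) z)| = exp (-s x + η y)`;
it is bounded by `C` on both boundary rays and of exponential growth, so `PhragmenLindelof.quadrant_I` gives
`‖G z‖ ≤ C exp (s x - η y)`. The same in the other quadrants (`quadrant_II`, `III`, `IV`, or apply the first case to
`z ↦ G (-z)`, `z ↦ conj (G (conj z))`). -/
theorem quadrants {G : ℂ → ℂ} (hG : Differentiable ℂ G) {C B M s η : ℝ}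
    (hexp : ∀ z, ‖G z‖ ≤ B * Real.exp (M * ‖z‖))
    (hre : ∀ x : ℝ, ‖G x‖ ≤ C * Real.exp (s * |x|))
    (him : ∀ y : ℝ, ‖G (y * Complex.I)‖ ≤ C * Real.exp (-η * |y|)) (z : ℂ) :
    ‖G z‖ ≤ C * Real.exp (s * |z.re| - η * |z.im|) := by
  rcases le_total 0 z.re with hx | hx <;> rcases le_total 0 z.im with hy | hy
  · have h := c3_back (PhragmenLindelof.quadrant_I (f := fun z => G z * Complex.exp (-(s + η * Complex.I) * z))
      (C := C) (c3_diff hG _ _) (c3_growth hexp _ _)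
      (fun x h0 => c3_bd (hre x) (by rw [abs_of_nonneg h0]; simp))
      (fun y h0 => c3_bd (him y) (by rw [abs_of_nonneg h0]; simp)) hx hy)
    refine h.trans (le_of_eq ?_)
    rw [abs_of_nonneg hx, abs_of_nonneg hy]
    congr 2
    simp
  · have h := c3_back (PhragmenLindelof.quadrant_IV (f := fun z => G z * Complex.exp (-(s - η * Complex.I) * z))
      (C := C) (c3_diff hG _ _) (c3_growth hexp _ _)
      (fun x h0 => c3_bd (hre x) (by rw [abs_of_nonneg h0]; simp))
      (fun y h0 => c3_bd (him y) (by rw [abs_of_nonpos h0]; simp)) hx hy)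
    refine h.trans (le_of_eq ?_)
    rw [abs_of_nonneg hx, abs_of_nonpos hy]
    congr 2
    simp
  · have h := c3_back (PhragmenLindelof.quadrant_II (f := fun z => G z * Complex.exp (-(-s + η * Complex.I) * z))
      (C := C) (c3_diff hG _ _) (c3_growth hexp _ _)
      (fun x h0 => c3_bd (hre x) (by rw [abs_of_nonpos h0]; simp))
      (fun y h0 => c3_bd (him y) (by rw [abs_of_nonneg h0]; simp)) hx hy)
    refine h.trans (le_of_eq ?_)
    rw [abs_of_nonpos hx, abs_of_nonneg hy]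
    congr 2
    simp
  · have h := c3_back (PhragmenLindelof.quadrant_III (f := fun z => G z * Complex.exp (-(-s - η * Complex.I) * z))
      (C := C) (c3_diff hG _ _) (c3_growth hexp _ _)
      (fun x h0 => c3_bd (hre x) (by rw [abs_of_nonpos h0]; simp))
      (fun y h0 => c3_bd (him y) (by rw [abs_of_nonpos h0]; simp)) hx hy)
    refine h.trans (le_of_eq ?_)
    rw [abs_of_nonpos hx, abs_of_nonpos hy]
    congr 2
    simp

end H12L
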