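import Pool.Agent.Lib.H12L.Defs
import Pool.Agent.Lib.H12L.C3

/-! # H12L, chunk C3B (M): Phragmen-Lindelof in quadrants -/

namespace H12L

theorem c3b_pos {G : ℂ → ℂ} (hG : Differentiable ℂ G) {C s η : ℝ} (hC : 0 ≤ C)
    (h : ∀ z : ℂ, ‖G z‖ ≤ C * Real.exp (s * |z.re| - η * |z.im|)) (x : ℝ) (hx : 0 ≤ x) :
    ‖G x‖ ≤ C * Real.exp ((s - η) * x) := by
  have hz : ∀ w : ℂ, ((1 - Complex.I) * w).re = w.re + w.im ∧ ((1 - Complex.I) * w).im = w.im - w.re := by
    intro w
    constructor
    · simp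
    · simp
      ring
  have hn : ∀ w : ℂ, ‖G ((1 - Complex.I) * w) * Complex.exp (-((s - η : ℝ) : ℂ) * ((1 - Complex.I) * w))‖ ≤
      C * Real.exp (s * |w.re + w.im| - η * |w.im - w.re| - (s - η) * (w.re + w.im)) := by
    intro w
    rw [norm_mul, Complex.norm_exp]
    have h1 := h ((1 - Complex.I) * w)
    rw [(hz w).1, (hz w).2] at h1
    have h2 : (-((s - η : ℝ) : ℂ) * ((1 - Complex.I) * w)).re = -(s - η) * (w.re + w.im) := by
      rw [← Complex.ofReal_neg, Complex.re_ofReal_mul, (hz w).1]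
    rw [h2]
    calc ‖G ((1 - Complex.I) * w)‖ * Real.exp (-(s - η) * (w.re + w.im))
        ≤ (C * Real.exp (s * |w.re + w.im| - η * |w.im - w.re|)) * Real.exp (-(s - η) * (w.re + w.im)) :=
          mul_le_mul_of_nonneg_right h1 (Real.exp_pos _).le
      _ = _ := by
          rw [mul_assoc, ← Real.exp_add]
          ring_nf
  have hmain := PhragmenLindelof.quadrant_I
    (f := fun w : ℂ => G ((1 - Complex.I) * w) * Complex.exp (-((s - η : ℝ) : ℂ) * ((1 - Complex.I) * w)))
    (z := ((x / 2 : ℝ) : ℂ) * (1 + Complex.I)) (C := C) ?_ ?_ ?_ ?_ ?_ ?_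
  · have h3 : (1 - Complex.I) * (((x / 2 : ℝ) : ℂ) * (1 + Complex.I)) = (x : ℂ) := by
      have h4 : (1 - Complex.I) * (((x / 2 : ℝ) : ℂ) * (1 + Complex.I)) = ((x / 2 : ℝ) : ℂ) * (1 - Complex.I * Complex.I) := by ring
      rw [h4, Complex.I_mul_I]
      push_cast
      ring
    have h5 := hmain
    simp only [h3] at h5
    rw [norm_mul, Complex.norm_exp] at h5
    have h6 : (-((s - η : ℝ) : ℂ) * (x : ℂ)).re = -((s - η) * x) := by
      rw [← Complex.ofReal_neg, ← Complex.ofReal_mul, Complex.ofReal_re]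
      ring
    rw [h6, Real.exp_neg, ← div_eq_mul_inv, div_le_iff₀ (Real.exp_pos _)] at h5
    exact h5
  · apply Differentiable.diffContOnCl
    exact (hG.comp (differentiable_id.const_mul _)).mul (((differentiable_id.const_mul _).const_mul _).cexp)
  · refine ⟨1, one_lt_two, 2 * |s| + 2 * |η| + 2 * |s - η|, ?_⟩
    refine Asymptotics.IsBigO.of_bound C (Filter.Eventually.of_forall fun w => ?_)
    refine (hn w).trans ?_
    rw [Real.norm_eq_abs, abs_of_pos (Real.exp_pos _)]
    refine mul_le_mul_of_nonneg_left (Real.exp_le_exp.mpr ?_) hC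
    rw [Real.rpow_one]
    have e1 := Complex.abs_re_le_norm w
    have e2 := Complex.abs_im_le_norm w
    have e3 : |w.re + w.im| ≤ 2 * ‖w‖ := (abs_add_le _ _).trans (by linarith)
    have e4 : |w.im - w.re| ≤ 2 * ‖w‖ := (abs_sub _ _).trans (by linarith)
    have e5 : s * |w.re + w.im| ≤ |s| * (2 * ‖w‖) :=
      (mul_le_mul_of_nonneg_right (le_abs_self s) (abs_nonneg _)).trans (mul_le_mul_of_nonneg_left e3 (abs_nonneg _))
    have e6 : -(η * |w.im - w.re|) ≤ |η| * (2 * ‖w‖) := by
      rw [← neg_mul]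
      exact (mul_le_mul_of_nonneg_right (neg_le_abs η) (abs_nonneg _)).trans (mul_le_mul_of_nonneg_left e4 (abs_nonneg _))
    have e7 : -((s - η) * (w.re + w.im)) ≤ |s - η| * (2 * ‖w‖) := by
      refine (neg_le_abs _).trans ?_
      rw [abs_mul]
      exact mul_le_mul_of_nonneg_left e3 (abs_nonneg _)
    linarith
  · intro y hy
    refine (hn _).trans (le_of_eq ?_)
    simp only [Complex.ofReal_re, Complex.ofReal_im, add_zero, zero_sub, abs_neg, abs_of_nonneg hy]
    rw [show s * y - η * y - (s - η) * y = 0 by ring, Real.exp_zero, mul_one]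
  · intro y hy
    refine (hn _).trans (le_of_eq ?_)
    simp only [Complex.re_ofReal_mul, Complex.im_ofReal_mul, Complex.I_re, Complex.I_im, mul_zero, mul_one, zero_add, sub_zero, abs_of_nonneg hy]
    rw [show s * y - η * y - (s - η) * y = 0 by ring, Real.exp_zero, mul_one]
  · simp
    linarith
  · simp
    linarith

/-- (C3b, M) PROOF. The sectors `|arg z| ≤ π / 4` and `|arg (-z)| ≤ π / 4` are rotated quadrants. On their rays
`|z.re| = |z.im|`, so `‖G z‖ ≤ C exp ((s - η) |z.re|)` there. For the right one: `G z * exp (-(s - η) z)` is bounded by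
`C` on the two rays and of exponential growth; `PhragmenLindelof.quadrant_I` for
`w ↦ G (e w) * exp (-(s - η) e w)`, `e = exp (-i π / 4) = (1 - i) / sqrt 2`. At `z = x > 0` this gives
`‖G x‖ ≤ C exp ((s - η) x)`. For `x < 0` apply it to `z ↦ G (-z)`. -/
theorem improve_real {G : ℂ → ℂ} (hG : Differentiable ℂ G) {C s η : ℝ} (hC : 0 ≤ C)
    (h : ∀ z : ℂ, ‖G z‖ ≤ C * Real.exp (s * |z.re| - η * |z.im|)) (x : ℝ) :
    ‖G x‖ ≤ C * Real.exp ((s - η) * |x|) := by
  rcases le_total 0 x with hx | hx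
  · rw [abs_of_nonneg hx]
    exact c3b_pos hG hC h x hx
  · have h1 := c3b_pos (G := fun z => G (-z)) (hG.comp differentiable_neg) hC (s := s) (η := η) (fun z => by
      have h2 := h (-z)
      rw [Complex.neg_re, Complex.neg_im, abs_neg, abs_neg] at h2
      exact h2) (-x) (by linarith)
    rw [abs_of_nonpos hx]
    simp only [Complex.ofReal_neg, neg_neg] at h1
    exact h1

end H12L
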