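import Pool.Agent.Lib.H12L.Defs
import Pool.Agent.Lib.H12L.C3
import Pool.Agent.Lib.H12L.C3B

/-! # H12L, chunk C4 (M): Carlson's theorem -/

namespace H12L

/-- (C4a, S/M) PROOF. Induction on `k`, for all `s ≤ k η`: if `s ≤ 0`, `G` is bounded by `C`, so constant
(`Differentiable.apply_eq_apply_of_bounded`), and `‖G (y i)‖ ≤ C exp (-η |y|) → 0`, so `G = 0`. If `0 < s ≤ (k + 1) η`:
`improve_real` gives `‖G x‖ ≤ C exp ((s - η) |x|)`, and `quadrants` (on the imaginary axis use `h`) gives
`‖G z‖ ≤ C exp ((s - η) |z.re| - η |z.im|)`, with `s - η ≤ k η`. -/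
theorem zero_of_decay {G : ℂ → ℂ} (hG : Differentiable ℂ G) {C s η : ℝ} (hC : 0 ≤ C) (hη : 0 < η)
    (h : ∀ z : ℂ, ‖G z‖ ≤ C * Real.exp (s * |z.re| - η * |z.im|)) (z : ℂ) : G z = 0 := by
  have base : ∀ s : ℝ, s ≤ 0 → (∀ z : ℂ, ‖G z‖ ≤ C * Real.exp (s * |z.re| - η * |z.im|)) → ∀ z, G z = 0 := by
    intro s hs h z
    have hb : Bornology.IsBounded (Set.range G) := by
      refine isBounded_iff_forall_norm_le.2 ⟨C, ?_⟩
      rintro _ ⟨w, rfl⟩
      refine (h w).trans ?_
      have h1 : s * |w.re| - η * |w.im| ≤ 0 := by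
        have h2 : s * |w.re| ≤ 0 := mul_nonpos_of_nonpos_of_nonneg hs (abs_nonneg _)
        have h3 : 0 ≤ η * |w.im| := mul_nonneg hη.le (abs_nonneg _)
        linarith
      calc C * Real.exp (s * |w.re| - η * |w.im|) ≤ C * 1 :=
            mul_le_mul_of_nonneg_left (Real.exp_le_one_iff.2 h1) hC
        _ = C := mul_one C
    have h1 : ∀ y : ℝ, ‖G z‖ ≤ C * Real.exp (-(η * y)) := by
      intro y
      by_cases hy : 0 ≤ y
      · have h2 := h ((y : ℂ) * Complex.I)
        rw [hG.apply_eq_apply_of_bounded hb z ((y : ℂ) * Complex.I)]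
        have e1 : ((y : ℂ) * Complex.I).re = 0 := by simp
        have e2 : ((y : ℂ) * Complex.I).im = y := by simp
        rw [e1, e2, abs_zero, mul_zero, zero_sub, abs_of_nonneg hy] at h2
        exact h2
      · have h2 := h 0
        rw [hG.apply_eq_apply_of_bounded hb z 0]
        refine h2.trans (mul_le_mul_of_nonneg_left (Real.exp_le_exp.2 ?_) hC)
        simp only [Complex.zero_re, Complex.zero_im, abs_zero, mul_zero, sub_zero]
        have : η * y ≤ 0 := mul_nonpos_of_nonneg_of_nonpos hη.le (not_le.1 hy).le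
        linarith
    have h2 : Filter.Tendsto (fun y : ℝ => C * Real.exp (-(η * y))) Filter.atTop (nhds (C * 0)) := by
      refine Filter.Tendsto.const_mul C ?_
      refine Real.tendsto_exp_neg_atTop_nhds_zero.comp ?_
      exact Filter.tendsto_id.const_mul_atTop hη
    rw [mul_zero] at h2
    have h3 : ‖G z‖ ≤ 0 := ge_of_tendsto' h2 h1
    exact norm_le_zero_iff.1 h3
  have key : ∀ k : ℕ, ∀ s : ℝ, s ≤ k * η → (∀ z : ℂ, ‖G z‖ ≤ C * Real.exp (s * |z.re| - η * |z.im|)) → ∀ z, G z = 0 := by
    intro k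
    induction k with
    | zero =>
      intro s hs h
      refine base s ?_ h
      simpa using hs
    | succ k ih =>
      intro s hs h
      have h1 := improve_real hG hC h
      have hexp : ∀ z, ‖G z‖ ≤ C * Real.exp (|s| * ‖z‖) := by
        intro z
        refine (h z).trans (mul_le_mul_of_nonneg_left (Real.exp_le_exp.2 ?_) hC)
        have h2 : s * |z.re| ≤ |s| * ‖z‖ := by
          calc s * |z.re| ≤ |s| * |z.re| := mul_le_mul_of_nonneg_right (le_abs_self s) (abs_nonneg _)
            _ ≤ |s| * ‖z‖ := mul_le_mul_of_nonneg_left (Complex.abs_re_le_norm z) (abs_nonneg _)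
        have h3 : 0 ≤ η * |z.im| := mul_nonneg hη.le (abs_nonneg _)
        linarith
      have him : ∀ y : ℝ, ‖G (y * Complex.I)‖ ≤ C * Real.exp (-η * |y|) := by
        intro y
        have h2 := h ((y : ℂ) * Complex.I)
        have e1 : ((y : ℂ) * Complex.I).re = 0 := by simp
        have e2 : ((y : ℂ) * Complex.I).im = y := by simp
        rw [e1, e2, abs_zero, mul_zero, zero_sub, ← neg_mul] at h2
        exact h2
      have h2 := quadrants hG (C := C) (B := C) (M := |s|) (s := s - η) (η := η) hexp h1 him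
      refine ih (s - η) ?_ h2
      push_cast at hs
      linarith
  obtain ⟨k, hk⟩ := exists_nat_ge (s / η)
  refine key k s ?_ h z
  rwa [div_le_iff₀ hη] at hk

end H12L
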