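import Pool.Agent.Lib.H12L.Defs
import Pool.Agent.Lib.H12L.C4
import Pool.Agent.Lib.H12L.C1
import Pool.Agent.Lib.H12L.C1B
import Pool.Agent.Lib.H12L.C2
import Pool.Agent.Lib.H12L.C3

/-! # H12L, chunk C4B (M): Carlson's theorem -/

namespace H12L

/-- (C4b, S/M) PROOF. `G` from `exists_quotient`, `quotient_growth`; on the real axis `‖G x‖ ≤ C' exp (σ |x|)`, on the
imaginary axis `‖G (y i)‖ ≤ C' exp (-(π - σ) |y|)`; `quadrants` with `s = σ`, `η = π - σ`, then `zero_of_decay`. -/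
theorem carlson {F : ℂ → ℂ} (hF : Differentiable ℂ F) {C σ : ℝ} (hσ0 : 0 ≤ σ)
    (hσ : σ < Real.pi) (hb : ∀ z, ‖F z‖ ≤ C * Real.exp (σ * ‖z‖)) (h0 : ∀ m : ℤ, F m = 0) (z : ℂ) :
    F z = 0 := by
  have hC : 0 ≤ C := by
    have h1 := (norm_nonneg _).trans (hb 0)
    rw [norm_zero, mul_zero, Real.exp_zero, mul_one] at h1
    exact h1
  obtain ⟨G, hG, hFG⟩ := exists_quotient hF h0
  obtain ⟨C', hC', hgr⟩ := quotient_growth hG hFG hC hσ0 hb
  have hexp : ∀ w, ‖G w‖ ≤ C' * Real.exp (σ * ‖w‖) := fun w => by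
    refine (hgr w).trans (mul_le_mul_of_nonneg_left (Real.exp_le_exp.2 ?_) hC')
    have h1 : 0 ≤ Real.pi * |w.im| := mul_nonneg Real.pi_pos.le (abs_nonneg _)
    linarith
  have hre : ∀ x : ℝ, ‖G x‖ ≤ C' * Real.exp (σ * |x|) := fun x => by
    refine (hexp x).trans (le_of_eq ?_)
    rw [Complex.norm_real, Real.norm_eq_abs]
  have him : ∀ y : ℝ, ‖G (y * Complex.I)‖ ≤ C' * Real.exp (-(Real.pi - σ) * |y|) := fun y => by
    refine (hgr _).trans (le_of_eq ?_)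
    rw [norm_mul, Complex.norm_I, mul_one, Complex.norm_real, Real.norm_eq_abs]
    have e : ((y : ℂ) * Complex.I).im = y := by simp
    rw [e]
    congr 2
    ring
  have hq : ∀ w : ℂ, ‖G w‖ ≤ C' * Real.exp (σ * |w.re| - (Real.pi - σ) * |w.im|) := fun w =>
    quadrants hG hexp hre him w
  rw [hFG z, zero_of_decay hG hC' (sub_pos.2 hσ) hq z, zero_mul]

end H12L
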