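import Pool.Agent.Lib.H12G.G12

/-!
# H12L: localized signals are determined by lattice samples of the Gaussian spectrogram (MP_ec7a01_an)

Overview: `PROOF.md`.
-/

namespace H12L

open MeasureTheory ComplexConjugate H12S

/-- every point of the plane has distance at most `δ` from the lattice -/
def DenseWithin (δ a b c d : ℝ) : Prop :=
  ∀ x y : ℝ, ∃ m n : ℤ, (a * m + b * n - x) ^ 2 + (c * m + d * n - y) ^ 2 ≤ δ ^ 2

/-- Gaussian decay of the transform around `(x₀, w₀)` with an exponential factor of rate `τ` -/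
def Localized (τ x₀ w₀ : ℝ) (f : ℝ → ℂ) : Prop :=
  ∃ C : ℝ, ∀ x w : ℝ, ‖stft f x w‖ ≤ C * Real.exp (-(Real.pi / 2) * ((x - x₀) ^ 2 + (w - w₀) ^ 2) +
    τ * Real.sqrt ((x - x₀) ^ 2 + (w - w₀) ^ 2))

/-- `exp (-π z ^ 2 / 2 - π (conj p) z) * Psi f z` -/
noncomputable def KF (p : ℂ) (f : ℝ → ℂ) (z : ℂ) : ℂ :=
  Complex.exp (-Real.pi * z ^ 2 / 2 - Real.pi * conj p * z) * Psi f z

/-- upper paraboloids support `φ` with constant `4` -/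
def Semi (φ : ℂ → ℝ) : Prop :=
  ∀ z₀ : ℂ, ∃ q : ℂ, ∀ z : ℂ, φ z ≤ φ z₀ + (q * (z - z₀)).re + 4 * ‖z - z₀‖ ^ 2

/-- the weight `inf_{‖w‖ ≤ R} (τ ‖w‖ + 4 ‖z - w‖ ^ 2)` -/
noncomputable def wt (τ R : ℝ) (z : ℂ) : ℝ :=
  sInf ((fun w : ℂ => τ * ‖w‖ + 4 * ‖z - w‖ ^ 2) '' Metric.closedBall 0 R)

end H12L
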