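import Pool.Agent.Lib.H12L.Defs

/-!
# H12L: Gabor sums with shifts in a disc
-/

namespace H12L

open MeasureTheory ComplexConjugate H12S

/-- the finite Gabor sum `∑ e i * exp (-π (t - s i) ^ 2) * exp (2 π i w i t)` -/
noncomputable def gab {n : ℕ} (e : Fin n → ℂ) (s w : Fin n → ℝ) (t : ℝ) : ℂ :=
  ∑ i, e i * Complex.exp (-Real.pi * (t - s i) ^ 2) * Complex.exp (2 * Real.pi * Complex.I * w i * t)

/-- `f` is a finite Gabor sum with all time-frequency shifts in the closed disc of radius `ρ` around `(x₀, w₀)` -/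
def GaborIn (ρ x₀ w₀ : ℝ) (f : ℝ → ℂ) : Prop :=
  ∃ (n : ℕ) (e : Fin n → ℂ) (s w : Fin n → ℝ),
    (∀ i, (s i - x₀) ^ 2 + (w i - w₀) ^ 2 ≤ ρ ^ 2) ∧ ∀ t, f t = gab e s w t

end H12L
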