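import Pool.Agent.Lib.H12L.Defs

/-! # H12L, chunk L1 (S/M): short lattice vectors -/

namespace H12L

/-- (L1, S/M) PROOF. The point `δ + ε` is within `δ` of a lattice point `p`; `p ≠ 0` and `‖p‖ ≤ 2 δ + ε`. Let
`z = (δ + ε) i p / ‖p‖` and `q` a lattice point with `‖q - z‖ ≤ δ`; `‖q‖ ≤ 2 δ + ε`. If `p.re q.im - p.im q.re = 0`, then
`q` is a real multiple of `p`, and `‖q - z‖ ≥ ‖z‖ = δ + ε`, a contradiction (`z` is orthogonal to `p`: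
`‖q - z‖ ^ 2 = ‖q‖ ^ 2 + ‖z‖ ^ 2`). -/
theorem short_vectors {δ ε : ℝ} (hδ : 0 < δ) (hε : 0 < ε) {u v : ℂ}
    (hd : ∀ z : ℂ, ∃ m n : ℤ, ‖(m * u + n * v) - z‖ ≤ δ) :
    ∃ p q : ℂ, (∃ m n : ℤ, p = m * u + n * v) ∧ (∃ m n : ℤ, q = m * u + n * v) ∧
      ‖p‖ ≤ 2 * δ + ε ∧ ‖q‖ ≤ 2 * δ + ε ∧ p.re * q.im - p.im * q.re ≠ 0 := by
  obtain ⟨m, n, hmn⟩ := hd ((δ + ε : ℝ) : ℂ)
  set p : ℂ := m * u + n * v with hp
  have hc : ‖((δ + ε : ℝ) : ℂ)‖ = δ + ε := by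
    rw [Complex.norm_real, Real.norm_eq_abs, abs_of_pos (by linarith)]
  have hpn : ‖p‖ ≤ 2 * δ + ε := by
    have h1 : ‖p‖ ≤ ‖p - ((δ + ε : ℝ) : ℂ)‖ + ‖((δ + ε : ℝ) : ℂ)‖ := by
      calc ‖p‖ = ‖(p - ((δ + ε : ℝ) : ℂ)) + ((δ + ε : ℝ) : ℂ)‖ := by ring_nf
        _ ≤ _ := norm_add_le _ _
    linarith
  have hp0 : p ≠ 0 := by
    intro h0
    rw [h0, zero_sub, norm_neg, hc] at hmn
    linarith
  have hr : 0 < ‖p‖ := norm_pos_iff.mpr hp0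
  have hr2 : ‖p‖ ^ 2 = p.re * p.re + p.im * p.im := by
    rw [Complex.sq_norm, Complex.normSq_apply]
  set z : ℂ := ⟨-(δ + ε) * p.im / ‖p‖, (δ + ε) * p.re / ‖p‖⟩ with hz
  have hz2 : z.re * z.re + z.im * z.im = (δ + ε) ^ 2 := by
    have e1 : z.re = -(δ + ε) * p.im / ‖p‖ := rfl
    have e2 : z.im = (δ + ε) * p.re / ‖p‖ := rfl
    rw [e1, e2]
    have e3 : -(δ + ε) * p.im / ‖p‖ * (-(δ + ε) * p.im / ‖p‖) +
        (δ + ε) * p.re / ‖p‖ * ((δ + ε) * p.re / ‖p‖) =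
        (δ + ε) ^ 2 * (p.re * p.re + p.im * p.im) / ‖p‖ ^ 2 := by
      field_simp
      ring
    rw [e3, ← hr2]
    field_simp
  have hzn : ‖z‖ = δ + ε := by
    have h1 : ‖z‖ ^ 2 = (δ + ε) ^ 2 := by
      rw [Complex.sq_norm, Complex.normSq_apply, hz2]
    exact (pow_left_inj₀ (norm_nonneg _) (by linarith) (by norm_num)).mp h1
  obtain ⟨m', n', hmn'⟩ := hd z
  set q : ℂ := m' * u + n' * v with hq
  have hqn : ‖q‖ ≤ 2 * δ + ε := by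
    have h1 : ‖q‖ ≤ ‖q - z‖ + ‖z‖ := by
      calc ‖q‖ = ‖(q - z) + z‖ := by ring_nf
        _ ≤ _ := norm_add_le _ _
    linarith
  refine ⟨p, q, ⟨m, n, hp⟩, ⟨m', n', hq⟩, hpn, hqn, ?_⟩
  intro hdet
  have horth : q.re * z.re + q.im * z.im = 0 := by
    have e1 : z.re = -(δ + ε) * p.im / ‖p‖ := rfl
    have e2 : z.im = (δ + ε) * p.re / ‖p‖ := rfl
    rw [e1, e2]
    have e3 : q.re * (-(δ + ε) * p.im / ‖p‖) + q.im * ((δ + ε) * p.re / ‖p‖) =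
        (δ + ε) * (p.re * q.im - p.im * q.re) / ‖p‖ := by
      field_simp
      ring
    rw [e3, hdet]
    simp
  have hsq : ‖q - z‖ ^ 2 = q.re * q.re + q.im * q.im + (δ + ε) ^ 2 := by
    rw [Complex.sq_norm, Complex.normSq_apply, Complex.sub_re, Complex.sub_im]
    linear_combination hz2 - 2 * horth
  have h2 : ‖q - z‖ ^ 2 ≤ δ ^ 2 := by
    have := norm_nonneg (q - z)
    exact pow_le_pow_left₀ this hmn' 2
  nlinarith [mul_self_nonneg q.re, mul_self_nonneg q.im]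

end H12L
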