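import Pool.Agent.Lib.H12L.Defs
import Pool.Agent.Lib.H12L.C4B
import Pool.Agent.Lib.H12S.C2A

/-! # H12L, chunk L2 (M): equality of moduli from the lattice to the plane -/

namespace H12L

open ComplexConjugate

/-- each factor of `HH` is bounded by an exponential of `‖s‖` -/
theorem l2_factor {F : ℂ → ℂ} {A τ : ℝ} (hA0 : 0 ≤ A) (hτ : 0 ≤ τ)
    (hb : ∀ z, ‖F z‖ ≤ A * Real.exp (τ * ‖z‖)) (l₀ p s t : ℂ) (ht : ‖t‖ = ‖s‖) :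
    ‖F (l₀ + t * p)‖ ≤ A * Real.exp (τ * (‖l₀‖ + ‖s‖ * ‖p‖)) := by
  refine (hb _).trans (mul_le_mul_of_nonneg_left (Real.exp_le_exp.2 (mul_le_mul_of_nonneg_left ?_ hτ)) hA0)
  refine (norm_add_le _ _).trans ?_
  rw [norm_mul, ht]

/-- the product of two factors -/
theorem l2_prod {F : ℂ → ℂ} {A τ : ℝ} (hA0 : 0 ≤ A) (hτ : 0 ≤ τ)
    (hb : ∀ z, ‖F z‖ ≤ A * Real.exp (τ * ‖z‖)) (l₀ p s : ℂ) :
    ‖F (l₀ + s * p) * conj (F (l₀ + conj s * p))‖ ≤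
      A ^ 2 * Real.exp (2 * τ * ‖l₀‖) * Real.exp (2 * τ * ‖p‖ * ‖s‖) := by
  have h1 := l2_factor hA0 hτ hb l₀ p s s rfl
  have h2 := l2_factor hA0 hτ hb l₀ p s (conj s) (RCLike.norm_conj s)
  rw [norm_mul, RCLike.norm_conj]
  refine (mul_le_mul h1 h2 (norm_nonneg _) (mul_nonneg hA0 (Real.exp_pos _).le)).trans (le_of_eq ?_)
  have e1 : A * Real.exp (τ * (‖l₀‖ + ‖s‖ * ‖p‖)) * (A * Real.exp (τ * (‖l₀‖ + ‖s‖ * ‖p‖))) =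
      A ^ 2 * (Real.exp (τ * (‖l₀‖ + ‖s‖ * ‖p‖)) * Real.exp (τ * (‖l₀‖ + ‖s‖ * ‖p‖))) := by ring
  rw [e1, ← Real.exp_add, mul_assoc, ← Real.exp_add]
  congr 2
  ring

/-- (L2a, S/M) PROOF. For fixed `l₀`, the function `HH F₁ F₂ l₀ p s` (`H12S/C2A.lean`: `HH_differentiable`,
`HH_real`) is entire in `s`, bounded by `2 A ^ 2 exp (2 τ ‖l₀‖) exp (2 τ ‖p‖ ‖s‖)`, and zero at the integers; `carlson` with
`σ = 2 τ ‖p‖ < π`; `HH_real` at real `s`. -/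
theorem line_eq {F₁ F₂ : ℂ → ℂ} (h₁ : Differentiable ℂ F₁) (h₂ : Differentiable ℂ F₂) {A τ : ℝ}
    (hA0 : 0 ≤ A) (hτ : 0 ≤ τ) (hb₁ : ∀ z, ‖F₁ z‖ ≤ A * Real.exp (τ * ‖z‖))
    (hb₂ : ∀ z, ‖F₂ z‖ ≤ A * Real.exp (τ * ‖z‖)) {l₀ p : ℂ} (hp : 2 * τ * ‖p‖ < Real.pi)
    (heq : ∀ m : ℤ, ‖F₁ (l₀ + m * p)‖ = ‖F₂ (l₀ + m * p)‖) (s : ℝ) :
    ‖F₁ (l₀ + s * p)‖ = ‖F₂ (l₀ + s * p)‖ := by
  have hσ0 : 0 ≤ 2 * τ * ‖p‖ := mul_nonneg (mul_nonneg zero_le_two hτ) (norm_nonneg _)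
  have hbd : ∀ z, ‖H12S.HH F₁ F₂ l₀ p z‖ ≤
      (2 * (A ^ 2 * Real.exp (2 * τ * ‖l₀‖))) * Real.exp (2 * τ * ‖p‖ * ‖z‖) := fun z => by
    have h3 := l2_prod hA0 hτ hb₁ l₀ p z
    have h4 := l2_prod hA0 hτ hb₂ l₀ p z
    unfold H12S.HH
    refine (norm_sub_le _ _).trans ?_
    linarith
  have h0 : ∀ m : ℤ, H12S.HH F₁ F₂ l₀ p m = 0 := fun m => by
    have h5 := H12S.HH_real F₁ F₂ l₀ p (m : ℝ)
    rw [Complex.ofReal_intCast, heq m, sub_self, Complex.ofReal_zero] at h5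
    exact h5
  have h6 := carlson (H12S.HH_differentiable h₁ h₂ l₀ p) hσ0 hp hbd h0 (s : ℂ)
  rw [H12S.HH_real, Complex.ofReal_eq_zero, sub_eq_zero] at h6
  exact (pow_left_inj₀ (norm_nonneg _) (norm_nonneg _) two_ne_zero).1 h6

end H12L
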