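import Pool.Agent.Lib.H12L.Defs
import Pool.Agent.Lib.H12L.L2

/-! # H12L, chunk L2B (M): equality of moduli from the lattice to the plane -/

namespace H12L

open ComplexConjugate

/-- (L2b, S/M) PROOF. `line_eq` with `l₀ = n q`: equality at `s p + n q` for real `s` and integers `n`. `line_eq` with
`l₀ = s p` and the direction `q`: equality at `s p + t q` for real `s`, `t`. Every `z` has this form
(`p.re q.im - p.im q.re ≠ 0`, Cramer). -/
theorem plane_eq {F₁ F₂ : ℂ → ℂ} (h₁ : Differentiable ℂ F₁) (h₂ : Differentiable ℂ F₂) {A τ : ℝ}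
    (hA0 : 0 ≤ A) (hτ : 0 ≤ τ) (hb₁ : ∀ z, ‖F₁ z‖ ≤ A * Real.exp (τ * ‖z‖))
    (hb₂ : ∀ z, ‖F₂ z‖ ≤ A * Real.exp (τ * ‖z‖)) {p q : ℂ} (hp : 2 * τ * ‖p‖ < Real.pi)
    (hq : 2 * τ * ‖q‖ < Real.pi) (hpq : p.re * q.im - p.im * q.re ≠ 0)
    (heq : ∀ m n : ℤ, ‖F₁ (m * p + n * q)‖ = ‖F₂ (m * p + n * q)‖) (z : ℂ) :
    ‖F₁ z‖ = ‖F₂ z‖ := by
  have h1 : ∀ (s : ℝ) (n : ℤ), ‖F₁ (s * p + n * q)‖ = ‖F₂ (s * p + n * q)‖ := by
    intro s n
    have h := line_eq h₁ h₂ hA0 hτ hb₁ hb₂ (l₀ := n * q) (p := p) hp (fun m => by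
      have h2 := heq m n
      rwa [add_comm ((m : ℂ) * p)] at h2) s
    rwa [add_comm ((n : ℂ) * q)] at h
  have h2 : ∀ s t : ℝ, ‖F₁ (s * p + t * q)‖ = ‖F₂ (s * p + t * q)‖ := by
    intro s t
    exact line_eq h₁ h₂ hA0 hτ hb₁ hb₂ (l₀ := s * p) (p := q) hq (fun n => h1 s n) t
  have h3 : z = (((z.re * q.im - z.im * q.re) / (p.re * q.im - p.im * q.re) : ℝ) : ℂ) * p +
      (((p.re * z.im - p.im * z.re) / (p.re * q.im - p.im * q.re) : ℝ) : ℂ) * q := by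
    apply Complex.ext
    · rw [Complex.add_re, Complex.re_ofReal_mul, Complex.re_ofReal_mul]
      rw [div_mul_eq_mul_div, div_mul_eq_mul_div, ← add_div, eq_div_iff hpq]
      ring
    · rw [Complex.add_im, Complex.im_ofReal_mul, Complex.im_ofReal_mul]
      rw [div_mul_eq_mul_div, div_mul_eq_mul_div, ← add_div, eq_div_iff hpq]
      ring
  rw [h3]
  exact h2 _ _

end H12L
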