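import Pool.Agent.Lib.H12L.Defs
import Pool.Agent.Lib.H12L.L2

/-! # H12L, chunk L2C (S/M): equality of moduli, sharp form -/

namespace H12L

open ComplexConjugate

/-- (L2c, S/M) PROOF. `line_eq` with `l₀ = n q`: equality at `s p + n q` for real `s` and integers `n`. Let
`D = p.re q.im - p.im q.re`, `κ = Re (conj p * q) / ‖p‖ ^ 2` and `q' = q - κ p = i D p / ‖p‖ ^ 2`, `‖q'‖ = |D| / ‖p‖`.
`line_eq` with `l₀ = s p` and the direction `q'` (the points `s p + n q' = (s - n κ) p + n q`): equality at `s p + t q'` for real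
`s`, `t`. Every `z` has this form (`z = p (s + i t D / ‖p‖ ^ 2)`). -/
theorem plane_eq' {F₁ F₂ : ℂ → ℂ} (h₁ : Differentiable ℂ F₁) (h₂ : Differentiable ℂ F₂) {A τ : ℝ}
    (hA0 : 0 ≤ A) (hτ : 0 ≤ τ) (hb₁ : ∀ z, ‖F₁ z‖ ≤ A * Real.exp (τ * ‖z‖))
    (hb₂ : ∀ z, ‖F₂ z‖ ≤ A * Real.exp (τ * ‖z‖)) {p q : ℂ} (hp : 2 * τ * ‖p‖ < Real.pi)
    (hq : 2 * τ * |p.re * q.im - p.im * q.re| < Real.pi * ‖p‖)
    (hpq : p.re * q.im - p.im * q.re ≠ 0)
    (heq : ∀ m n : ℤ, ‖F₁ (m * p + n * q)‖ = ‖F₂ (m * p + n * q)‖) (z : ℂ) :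
    ‖F₁ z‖ = ‖F₂ z‖ := by
  have hp0 : p ≠ 0 := by
    rintro rfl
    apply hpq
    simp
  have hpn : 0 < ‖p‖ := norm_pos_iff.2 hp0
  have hNsq : ‖p‖ ^ 2 = p.re * p.re + p.im * p.im := by rw [Complex.sq_norm, Complex.normSq_apply]
  have hN : 0 < p.re * p.re + p.im * p.im := by
    rw [← hNsq]
    positivity
  obtain ⟨κ, hκ⟩ : ∃ κ : ℝ, κ = (p.re * q.re + p.im * q.im) / (p.re * p.re + p.im * p.im) := ⟨_, rfl⟩
  have hκ' : κ * (p.re * p.re + p.im * p.im) = p.re * q.re + p.im * q.im := by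
    rw [hκ]
    exact div_mul_cancel₀ _ hN.ne'
  obtain ⟨q', hq'⟩ : ∃ q' : ℂ, q' = q - κ * p := ⟨_, rfl⟩
  have r1 : q'.re = q.re - κ * p.re := by rw [hq']; simp
  have r2 : q'.im = q.im - κ * p.im := by rw [hq']; simp
  have horth : p.re * q'.re + p.im * q'.im = 0 := by
    rw [r1, r2]
    linear_combination -hκ'
  have hD : p.re * q'.im - p.im * q'.re = p.re * q.im - p.im * q.re := by
    rw [r1, r2]
    ring
  have hqn : ‖q'‖ * ‖p‖ = |p.re * q.im - p.im * q.re| := by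
    refine (sq_eq_sq₀ (by positivity) (abs_nonneg _)).1 ?_
    rw [mul_pow, hNsq, sq_abs, Complex.sq_norm, Complex.normSq_apply, ← hD]
    linear_combination (p.re * q'.re + p.im * q'.im) * horth
  have hq2 : 2 * τ * ‖q'‖ < Real.pi := by
    refine lt_of_mul_lt_mul_right ?_ hpn.le
    rw [mul_assoc, hqn]
    exact hq
  have s1 : ∀ (n : ℤ) (s : ℝ), ‖F₁ (n * q + s * p)‖ = ‖F₂ (n * q + s * p)‖ := fun n s =>
    line_eq h₁ h₂ hA0 hτ hb₁ hb₂ hp (fun m => by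
      rw [add_comm]
      exact heq m n) s
  have s2 : ∀ s t : ℝ, ‖F₁ (s * p + t * q')‖ = ‖F₂ (s * p + t * q')‖ := fun s t =>
    line_eq h₁ h₂ hA0 hτ hb₁ hb₂ hq2 (fun n => by
      have e : ((s : ℂ) * p + (n : ℂ) * q') = (n : ℂ) * q + ((s - n * κ : ℝ) : ℂ) * p := by
        rw [hq']
        push_cast
        ring
      rw [e]
      exact s1 n _) t
  have hz : z = (((z.re * q'.im - z.im * q'.re) / (p.re * q.im - p.im * q.re) : ℝ) : ℂ) * p +
      (((p.re * z.im - p.im * z.re) / (p.re * q.im - p.im * q.re) : ℝ) : ℂ) * q' := by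
    apply Complex.ext
    · rw [Complex.add_re, Complex.re_ofReal_mul, Complex.re_ofReal_mul]
      field_simp
      rw [← hD]
      ring
    · rw [Complex.add_im, Complex.im_ofReal_mul, Complex.im_ofReal_mul]
      field_simp
      rw [← hD]
      ring
  rw [hz]
  exact s2 _ _

end H12L
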