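import Pool.Agent.Lib.H12L.Defs

/-! # H12L, chunk L3 (S/M): bounds for `KF` -/

namespace H12L

open MeasureTheory ComplexConjugate H12S

/-- (L3a, S) PROOF. `Psi_differentiable`. -/
theorem KF_differentiable {f : ℝ → ℂ} (hf : MemLp f 2 volume) (p : ℂ) :
    Differentiable ℂ (KF p f) := by
  unfold KF
  refine Differentiable.mul ?_ (Psi_differentiable hf)
  exact (by fun_prop : Differentiable ℂ fun z : ℂ => -Real.pi * z ^ 2 / 2 - Real.pi * conj p * z).cexp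

theorem l3_re (p z : ℂ) :
    (-Real.pi * z ^ 2 / 2 - Real.pi * conj p * z).re =
      -(Real.pi / 2) * (z.re ^ 2 - z.im ^ 2) - Real.pi * (p.re * z.re + p.im * z.im) := by
  have e : (-Real.pi * z ^ 2 / 2 - Real.pi * conj p * z : ℂ) =
      ((-(Real.pi / 2) : ℝ) : ℂ) * (z * z) - (Real.pi : ℝ) * (conj p * z) := by
    push_cast
    ring
  rw [e, Complex.sub_re, Complex.re_ofReal_mul, Complex.re_ofReal_mul, Complex.mul_re, Complex.mul_re,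
    Complex.conj_re, Complex.conj_im]
  ring

/-- (L3c, S) PROOF. `Psi_bound`: `‖KF p h z‖ ≤ C exp (-π (x ^ 2 - y ^ 2) / 2 + π ‖p‖ ‖z‖ + π x ^ 2) =`
`C exp (π ‖z‖ ^ 2 / 2 + π ‖p‖ ‖z‖)`, and `π ‖p‖ r ≤ r ^ 2 + (π ‖p‖) ^ 2`, `π / 2 + 1 ≤ 7/2`. -/
theorem KF_growth {h : ℝ → ℂ} (hh : MemLp h 2 volume) (p : ℂ) :
    ∃ B : ℝ, 0 ≤ B ∧ ∀ z, ‖KF p h z‖ ≤ B * Real.exp (7 / 2 * ‖z‖ ^ 2) := by
  obtain ⟨C, hC, hb⟩ := Psi_bound hh
  refine ⟨C * Real.exp ((Real.pi * ‖p‖) ^ 2), by positivity, fun z => ?_⟩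
  have h1 : ‖KF p h z‖ = Real.exp (-(Real.pi / 2) * (z.re ^ 2 - z.im ^ 2) -
      Real.pi * (p.re * z.re + p.im * z.im)) * ‖Psi h z‖ := by
    unfold KF
    rw [norm_mul, Complex.norm_exp, l3_re]
  rw [h1]
  have h2 := hb z
  have h3 : -(Real.pi / 2) * (z.re ^ 2 - z.im ^ 2) - Real.pi * (p.re * z.re + p.im * z.im) +
      Real.pi * z.re ^ 2 ≤ (Real.pi * ‖p‖) ^ 2 + 7 / 2 * ‖z‖ ^ 2 := by
    have h4 : ‖z‖ ^ 2 = z.re ^ 2 + z.im ^ 2 := by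
      rw [Complex.sq_norm, Complex.normSq_apply]
      ring
    have h5 : -(p.re * z.re + p.im * z.im) ≤ ‖p‖ * ‖z‖ := by
      have h6 := Complex.abs_re_le_norm (conj p * z)
      rw [norm_mul, Complex.norm_conj, Complex.mul_re, Complex.conj_re, Complex.conj_im] at h6
      have h7 := neg_abs_le (p.re * z.re - -p.im * z.im)
      linarith
    have h8 : Real.pi * -(p.re * z.re + p.im * z.im) ≤ Real.pi * (‖p‖ * ‖z‖) :=
      mul_le_mul_of_nonneg_left h5 Real.pi_pos.le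
    have h9 : Real.pi < 3.15 := Real.pi_lt_d2
    have h10 : Real.pi / 2 * ‖z‖ ^ 2 ≤ 5 / 2 * ‖z‖ ^ 2 :=
      mul_le_mul_of_nonneg_right (by linarith) (by positivity)
    have h11 : 0 ≤ (Real.pi * ‖p‖ - ‖z‖) ^ 2 := sq_nonneg _
    have h12 : 0 ≤ (Real.pi * ‖p‖) ^ 2 := sq_nonneg _
    have h13 : 0 ≤ ‖z‖ ^ 2 := sq_nonneg _
    nlinarith
  calc Real.exp (-(Real.pi / 2) * (z.re ^ 2 - z.im ^ 2) - Real.pi * (p.re * z.re + p.im * z.im)) * ‖Psi h z‖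
      ≤ Real.exp (-(Real.pi / 2) * (z.re ^ 2 - z.im ^ 2) - Real.pi * (p.re * z.re + p.im * z.im)) *
        (C * Real.exp (Real.pi * z.re ^ 2)) := mul_le_mul_of_nonneg_left h2 (Real.exp_pos _).le
    _ = C * Real.exp (-(Real.pi / 2) * (z.re ^ 2 - z.im ^ 2) - Real.pi * (p.re * z.re + p.im * z.im) +
        Real.pi * z.re ^ 2) := by
      rw [Real.exp_add]
      ring
    _ ≤ C * Real.exp ((Real.pi * ‖p‖) ^ 2 + 7 / 2 * ‖z‖ ^ 2) :=
      mul_le_mul_of_nonneg_left (Real.exp_le_exp.2 h3) hC.le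
    _ = C * Real.exp ((Real.pi * ‖p‖) ^ 2) * Real.exp (7 / 2 * ‖z‖ ^ 2) := by
      rw [Real.exp_add]
      ring

end H12L
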