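import Pool.Agent.Lib.H12L.Defs

/-! # H12L, chunk L3B (S/M): bounds for `KF` -/

namespace H12L

open MeasureTheory ComplexConjugate H12S

theorem l3b_re (p z : ℂ) :
    (-Real.pi * z ^ 2 / 2 - Real.pi * conj p * z).re =
      -(Real.pi / 2) * (z.re ^ 2 - z.im ^ 2) - Real.pi * (p.re * z.re + p.im * z.im) := by
  have e : (-Real.pi * z ^ 2 / 2 - Real.pi * conj p * z : ℂ) =
      ((-(Real.pi / 2) : ℝ) : ℂ) * (z * z) - (Real.pi : ℝ) * (conj p * z) := by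
    push_cast
    ring
  rw [e, Complex.sub_re, Complex.re_ofReal_mul, Complex.re_ofReal_mul, Complex.mul_re, Complex.mul_re,
    Complex.conj_re, Complex.conj_im]
  ring

/-- (L3b, S/M) PROOF. With `z = x - i w`: `stft_eq` gives `‖Psi f z‖ = exp (π x ^ 2) ‖stft f x w‖`, so
`‖exp (-π z ^ 2 / 2) Psi f z‖ = exp (π ‖z‖ ^ 2 / 2) ‖stft f x w‖`. With `p = x₀ - i w₀`:
`(x - x₀) ^ 2 + (w - w₀) ^ 2 = ‖z - p‖ ^ 2 = ‖z‖ ^ 2 - 2 Re (conj p * z) + ‖p‖ ^ 2`, so the Gaussian factors cancel up to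
`exp (-π ‖p‖ ^ 2 / 2) ≤ 1`, and `‖z - p‖ ≤ ‖z‖ + ‖p‖`. `A = |C| exp (τ ‖p‖)`. -/
theorem KF_localized {τ x₀ w₀ : ℝ} (hτ : 0 ≤ τ) {f : ℝ → ℂ} (hf : Localized τ x₀ w₀ f) :
    ∃ A : ℝ, 0 ≤ A ∧ ∀ z, ‖KF ⟨x₀, -w₀⟩ f z‖ ≤ A * Real.exp (τ * ‖z‖) := by
  obtain ⟨C, hC⟩ := hf
  refine ⟨|C| * Real.exp (τ * ‖(⟨x₀, -w₀⟩ : ℂ)‖), by positivity, fun z => ?_⟩
  have h0 := hC z.re (-z.im)
  have ez : ((z.re : ℂ) - Complex.I * ((-z.im : ℝ) : ℂ)) = z := by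
    rw [Complex.ofReal_neg, mul_neg, sub_neg_eq_add, mul_comm]
    exact Complex.re_add_im z
  have h1 : ‖stft f z.re (-z.im)‖ = Real.exp (-Real.pi * z.re ^ 2) * ‖Psi f z‖ := by
    rw [stft_eq, ez, norm_mul]
    have e : (-Real.pi * (z.re : ℂ) ^ 2 : ℂ) = ((-Real.pi * z.re ^ 2 : ℝ) : ℂ) := by push_cast; ring
    rw [e, Complex.norm_exp, Complex.ofReal_re]
  have h2 : ‖KF ⟨x₀, -w₀⟩ f z‖ = Real.exp (-(Real.pi / 2) * (z.re ^ 2 - z.im ^ 2) -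
      Real.pi * (x₀ * z.re + -w₀ * z.im)) * ‖Psi f z‖ := by
    unfold KF
    rw [norm_mul, Complex.norm_exp, l3b_re]
  have h3 : ‖Psi f z‖ = Real.exp (Real.pi * z.re ^ 2) * ‖stft f z.re (-z.im)‖ := by
    rw [h1, ← mul_assoc, ← Real.exp_add]
    have e : Real.pi * z.re ^ 2 + -Real.pi * z.re ^ 2 = 0 := by ring
    rw [e, Real.exp_zero, one_mul]
  have h4 : Real.sqrt ((z.re - x₀) ^ 2 + (-z.im - w₀) ^ 2) ≤ ‖z‖ + ‖(⟨x₀, -w₀⟩ : ℂ)‖ := by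
    have h5 : Real.sqrt ((z.re - x₀) ^ 2 + (-z.im - w₀) ^ 2) = ‖z - (⟨x₀, -w₀⟩ : ℂ)‖ := by
      rw [Complex.norm_def, Complex.normSq_apply, Complex.sub_re, Complex.sub_im]
      congr 1
      simp only
      ring
    rw [h5]
    exact norm_sub_le _ _
  have h6 : -(Real.pi / 2) * (z.re ^ 2 - z.im ^ 2) - Real.pi * (x₀ * z.re + -w₀ * z.im) +
      Real.pi * z.re ^ 2 + (-(Real.pi / 2) * ((z.re - x₀) ^ 2 + (-z.im - w₀) ^ 2) +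
      τ * Real.sqrt ((z.re - x₀) ^ 2 + (-z.im - w₀) ^ 2)) ≤
      τ * ‖(⟨x₀, -w₀⟩ : ℂ)‖ + τ * ‖z‖ := by
    have h7 : τ * Real.sqrt ((z.re - x₀) ^ 2 + (-z.im - w₀) ^ 2) ≤
        τ * (‖z‖ + ‖(⟨x₀, -w₀⟩ : ℂ)‖) := mul_le_mul_of_nonneg_left h4 hτ
    have h8 : 0 ≤ Real.pi / 2 * (x₀ ^ 2 + w₀ ^ 2) := by positivity
    nlinarith
  have h9 : ‖stft f z.re (-z.im)‖ ≤ |C| * Real.exp (-(Real.pi / 2) * ((z.re - x₀) ^ 2 + (-z.im - w₀) ^ 2) +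
      τ * Real.sqrt ((z.re - x₀) ^ 2 + (-z.im - w₀) ^ 2)) :=
    h0.trans (mul_le_mul_of_nonneg_right (le_abs_self C) (Real.exp_pos _).le)
  rw [h2, h3]
  calc Real.exp (-(Real.pi / 2) * (z.re ^ 2 - z.im ^ 2) - Real.pi * (x₀ * z.re + -w₀ * z.im)) *
        (Real.exp (Real.pi * z.re ^ 2) * ‖stft f z.re (-z.im)‖)
      ≤ Real.exp (-(Real.pi / 2) * (z.re ^ 2 - z.im ^ 2) - Real.pi * (x₀ * z.re + -w₀ * z.im)) *
        (Real.exp (Real.pi * z.re ^ 2) * (|C| * Real.exp (-(Real.pi / 2) *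
          ((z.re - x₀) ^ 2 + (-z.im - w₀) ^ 2) +
          τ * Real.sqrt ((z.re - x₀) ^ 2 + (-z.im - w₀) ^ 2)))) :=
      mul_le_mul_of_nonneg_left (mul_le_mul_of_nonneg_left h9 (Real.exp_pos _).le) (Real.exp_pos _).le
    _ = |C| * Real.exp (-(Real.pi / 2) * (z.re ^ 2 - z.im ^ 2) - Real.pi * (x₀ * z.re + -w₀ * z.im) +
      Real.pi * z.re ^ 2 + (-(Real.pi / 2) * ((z.re - x₀) ^ 2 + (-z.im - w₀) ^ 2) +
      τ * Real.sqrt ((z.re - x₀) ^ 2 + (-z.im - w₀) ^ 2))) := by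
      rw [Real.exp_add (-(Real.pi / 2) * (z.re ^ 2 - z.im ^ 2) - Real.pi * (x₀ * z.re + -w₀ * z.im) +
        Real.pi * z.re ^ 2), Real.exp_add (-(Real.pi / 2) * (z.re ^ 2 - z.im ^ 2) -
        Real.pi * (x₀ * z.re + -w₀ * z.im))]
      ring
    _ ≤ |C| * Real.exp (τ * ‖(⟨x₀, -w₀⟩ : ℂ)‖ + τ * ‖z‖) :=
      mul_le_mul_of_nonneg_left (Real.exp_le_exp.2 h6) (abs_nonneg C)
    _ = |C| * Real.exp (τ * ‖(⟨x₀, -w₀⟩ : ℂ)‖) * Real.exp (τ * ‖z‖) := by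
      rw [Real.exp_add]
      ring

end H12L
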