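import Pool.Agent.Lib.H12L.Defs

/-! # H12L, chunk T1 (S): the weights -/

namespace H12L

open Metric

/-- (T1a, S) PROOF. `IsCompact.exists_isMinOn` / the infimum over a compact set is attained. -/
theorem wt_attained {τ R : ℝ} (hR : 0 ≤ R) (z : ℂ) :
    ∃ w : ℂ, ‖w‖ ≤ R ∧ wt τ R z = τ * ‖w‖ + 4 * ‖z - w‖ ^ 2 := by
  have hc : Continuous fun w : ℂ => τ * ‖w‖ + 4 * ‖z - w‖ ^ 2 := by fun_prop
  have hK : IsCompact ((fun w : ℂ => τ * ‖w‖ + 4 * ‖z - w‖ ^ 2) '' closedBall 0 R) :=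
    (isCompact_closedBall 0 R).image hc
  have hne : ((fun w : ℂ => τ * ‖w‖ + 4 * ‖z - w‖ ^ 2) '' closedBall 0 R).Nonempty :=
    (nonempty_closedBall.2 hR).image _
  obtain ⟨w, hw, h⟩ := hK.sInf_mem hne
  exact ⟨w, by simpa using hw, h.symm⟩

/-- (T1b, S) PROOF. `csInf_le` (bounded below: compact). -/
theorem wt_le {τ R : ℝ} (hτ : 0 ≤ τ) {w : ℂ} (hw : ‖w‖ ≤ R) (z : ℂ) :
    wt τ R z ≤ τ * ‖w‖ + 4 * ‖z - w‖ ^ 2 := by
  have hc : Continuous fun w : ℂ => τ * ‖w‖ + 4 * ‖z - w‖ ^ 2 := by fun_prop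
  have hK : IsCompact ((fun w : ℂ => τ * ‖w‖ + 4 * ‖z - w‖ ^ 2) '' closedBall 0 R) :=
    (isCompact_closedBall 0 R).image hc
  exact csInf_le hK.bddBelow ⟨w, by simpa using hw, rfl⟩

end H12L
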