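import Pool.Agent.Lib.H12L.Defs
import Pool.Agent.Lib.H12L.T1

/-! # H12L, chunk T1B (S/M): the weights -/

namespace H12L

open Metric

/-- (T1c, S) PROOF. Let `w₀` attain the infimum at `z₀`. `wt z ≤ τ ‖w₀‖ + 4 ‖z - w₀‖ ^ 2` and
`‖z - w₀‖ ^ 2 = ‖z₀ - w₀‖ ^ 2 + 2 Re (conj (z₀ - w₀) (z - z₀)) + ‖z - z₀‖ ^ 2`; `q = 8 conj (z₀ - w₀)`. -/
theorem wt_semi {τ R : ℝ} (hτ : 0 ≤ τ) (hR : 0 ≤ R) : Semi (wt τ R) := by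
  intro z₀
  obtain ⟨w₀, hw, h0⟩ := wt_attained (τ := τ) hR z₀
  refine ⟨8 * (starRingEnd ℂ) (z₀ - w₀), fun z => ?_⟩
  have h1 := wt_le hτ hw z
  have h2 : ‖z - w₀‖ ^ 2 = ‖z₀ - w₀‖ ^ 2 + 2 * ((starRingEnd ℂ) (z₀ - w₀) * (z - z₀)).re + ‖z - z₀‖ ^ 2 := by
    rw [Complex.sq_norm, Complex.sq_norm, Complex.sq_norm, Complex.normSq_apply, Complex.normSq_apply,
      Complex.normSq_apply, Complex.mul_re, Complex.conj_re, Complex.conj_im]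
    simp only [Complex.sub_re, Complex.sub_im]
    ring
  have h3 : (8 * (starRingEnd ℂ) (z₀ - w₀) * (z - z₀)).re = 8 * ((starRingEnd ℂ) (z₀ - w₀) * (z - z₀)).re := by
    rw [mul_assoc, show (8 : ℂ) = ((8 : ℝ) : ℂ) by norm_num, Complex.re_ofReal_mul]
  rw [h3, h0]
  rw [h2] at h1
  linarith

/-- (T1d, S) PROOF. `wt_attained`: `τ ‖w‖ + 4 r ^ 2 ≥ τ ‖z‖ - τ r + 4 r ^ 2 ≥ τ ‖z‖ - τ ^ 2 / 16`, `r = ‖z - w‖`. -/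
theorem wt_ge {τ R : ℝ} (hτ : 0 ≤ τ) (hR : 0 ≤ R) (z : ℂ) : τ * ‖z‖ - τ ^ 2 / 16 ≤ wt τ R z := by
  obtain ⟨w, hw, h0⟩ := wt_attained (τ := τ) hR z
  rw [h0]
  have h1 : ‖z‖ ≤ ‖z - w‖ + ‖w‖ := by
    have := norm_add_le (z - w) w
    rwa [sub_add_cancel] at this
  have h2 := mul_le_mul_of_nonneg_left h1 hτ
  nlinarith [sq_nonneg (2 * ‖z - w‖ - τ / 4)]

/-- (T1e, S) PROOF. `wt_attained`: `‖z - w‖ ≥ ‖z‖ - R`. If `‖z‖ ≥ R`, then `4 (‖z‖ - R) ^ 2 ≥ 7/2 ‖z‖ ^ 2 - 28 R ^ 2`;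
otherwise `wt ≥ 0 ≥ 7/2 ‖z‖ ^ 2 - 28 R ^ 2`. -/
theorem wt_growth {τ R : ℝ} (hτ : 0 ≤ τ) (hR : 0 ≤ R) (z : ℂ) :
    7 / 2 * ‖z‖ ^ 2 - 28 * R ^ 2 ≤ wt τ R z := by
  obtain ⟨w, hw, h0⟩ := wt_attained (τ := τ) hR z
  rw [h0]
  have h1 : ‖z‖ ≤ ‖z - w‖ + ‖w‖ := by
    have := norm_add_le (z - w) w
    rwa [sub_add_cancel] at this
  have h2 : 0 ≤ τ * ‖w‖ := mul_nonneg hτ (norm_nonneg w)
  have h3 : 0 ≤ ‖z‖ := norm_nonneg z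
  rcases le_total R ‖z‖ with h | h
  · have h4 : ‖z‖ - R ≤ ‖z - w‖ := by linarith
    have h5 : (‖z‖ - R) ^ 2 ≤ ‖z - w‖ ^ 2 := pow_le_pow_left₀ (by linarith) h4 2
    nlinarith [sq_nonneg (‖z‖ - 8 * R)]
  · have h4 : ‖z‖ ^ 2 ≤ R ^ 2 := pow_le_pow_left₀ h3 h 2
    nlinarith [sq_nonneg ‖z - w‖, sq_nonneg R]

end H12L
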