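import Pool.Agent.Lib.H12L.Defs
import Pool.Agent.Lib.H12S.S1

/-! # H12L, chunk T2 (M): the spreading lemma with a general weight -/

namespace H12L

theorem t2_exp : Real.exp (1 / 16) ≤ 1.07 := by
  by_contra hc
  have h1 : (1.07 : ℝ) ^ 16 < Real.exp (1 / 16) ^ 16 := pow_lt_pow_left₀ (not_le.1 hc) (by norm_num) (by norm_num)
  rw [← Real.exp_nat_mul] at h1
  have h2 : ((16 : ℕ) : ℝ) * (1 / 16) = 1 := by norm_num
  rw [h2] at h1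
  have h3 := Real.exp_one_lt_d9
  norm_num at h1
  linarith

/-- (T2a, M) PROOF. As `H12S.spread_step` (file `H12S/S2.lean`, copy and replace `4 * infDist ^ 2` by `φ`). -/
theorem spread_step {K : ℂ → ℂ} (hK : Differentiable ℂ K) {φ : ℂ → ℝ} (hφ : Semi φ) {Λ : Set ℂ}
    (hd : ∀ z : ℂ, ∃ l ∈ Λ, ‖l - z‖ ≤ 1 / 8) {A m : ℝ} (hA0 : 0 ≤ A)
    (hm0 : 0 ≤ m) (hA : ∀ l ∈ Λ, ‖K l‖ ≤ A * Real.exp (φ l))
    (hm : ∀ z : ℂ, ‖K z‖ ≤ m * Real.exp (φ z)) :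
    ∀ z : ℂ, ‖K z‖ ≤ (1.07 * A + 0.907 * m) * Real.exp (φ z) := by
  intro z₀
  obtain ⟨q, hq⟩ := hφ z₀
  obtain ⟨l, hl, hlz⟩ := hd z₀
  obtain ⟨Q, hQd⟩ : ∃ Q : ℂ → ℂ, Q = fun w => K w * Complex.exp (-(q * (w - z₀))) := ⟨_, rfl⟩
  have hQ : Differentiable ℂ Q := by
    rw [hQd]
    refine hK.mul ?_
    fun_prop
  have hn : ∀ w, ‖Q w‖ = ‖K w‖ * Real.exp (-(q * (w - z₀)).re) := by
    intro w
    rw [hQd]
    show ‖K w * Complex.exp (-(q * (w - z₀)))‖ = _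
    rw [norm_mul, Complex.norm_exp, Complex.neg_re]
  have hφ' : ∀ (w : ℂ) (a r : ℝ), 0 ≤ a → ‖K w‖ ≤ a * Real.exp (φ w) → ‖w - z₀‖ ^ 2 ≤ r →
      ‖Q w‖ ≤ a * (Real.exp (φ z₀) * Real.exp (4 * r)) := by
    intro w a r ha h1 h2
    rw [hn w]
    have h3 : ‖K w‖ * Real.exp (-(q * (w - z₀)).re) ≤
        a * Real.exp (φ w) * Real.exp (-(q * (w - z₀)).re) :=
      mul_le_mul_of_nonneg_right h1 (Real.exp_pos _).le
    refine h3.trans ?_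
    rw [mul_assoc]
    refine mul_le_mul_of_nonneg_left ?_ ha
    rw [← Real.exp_add, ← Real.exp_add]
    refine Real.exp_le_exp.2 ?_
    have h4 := hq w
    linarith
  have hB : ∀ w : ℂ, ‖w - z₀‖ ≤ 1 / 2 → ‖Q w‖ ≤ m * (Real.exp (φ z₀) * Real.exp 1) := by
    intro w hw
    have h1 : ‖w - z₀‖ ^ 2 ≤ 1 / 4 := by
      have h0 := norm_nonneg (w - z₀)
      nlinarith
    have h2 := hφ' w m (1 / 4) hm0 (hm w) h1
    norm_num at h2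
    exact h2
  have hQl : ‖Q l‖ ≤ A * (Real.exp (φ z₀) * Real.exp (1 / 16)) := by
    have h1 : ‖l - z₀‖ ^ 2 ≤ 1 / 64 := by
      have h0 := norm_nonneg (l - z₀)
      nlinarith
    have h2 := hφ' l A (1 / 64) hA0 (hA l hl) h1
    have h3 : (4 : ℝ) * (1 / 64) = 1 / 16 := by norm_num
    rw [h3] at h2
    exact h2
  have hdiff := H12S.cauchy_diff hQ hB hlz
  have hQ0 : Q z₀ = K z₀ := by
    rw [hQd]
    show K z₀ * Complex.exp (-(q * (z₀ - z₀))) = K z₀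
    rw [sub_self, mul_zero, neg_zero, Complex.exp_zero, mul_one]
  have h1 : ‖K z₀‖ ≤ ‖Q l‖ + ‖Q z₀ - Q l‖ := by
    rw [← hQ0]
    have h2 : Q z₀ = Q l + (Q z₀ - Q l) := by ring
    calc ‖Q z₀‖ = ‖Q l + (Q z₀ - Q l)‖ := by rw [← h2]
      _ ≤ ‖Q l‖ + ‖Q z₀ - Q l‖ := norm_add_le _ _
  obtain ⟨e, he⟩ : ∃ e : ℝ, e = Real.exp (φ z₀) := ⟨_, rfl⟩
  have he0 : 0 < e := by rw [he]; exact Real.exp_pos _
  rw [← he] at hQl hdiff ⊢
  have h3 := Real.exp_one_lt_d9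
  have h4 : A * (e * Real.exp (1 / 16)) ≤ A * (e * 1.07) :=
    mul_le_mul_of_nonneg_left (mul_le_mul_of_nonneg_left t2_exp he0.le) hA0
  have h5 : m * (e * Real.exp 1) ≤ m * (e * 2.7182818286) :=
    mul_le_mul_of_nonneg_left (mul_le_mul_of_nonneg_left h3.le he0.le) hm0
  have h6 : 0 ≤ m * e := mul_nonneg hm0 he0.le
  have h7 : m * (e * 2.7182818286) / 3 ≤ 0.907 * (m * e) := by
    norm_num
    linarith
  have h8 : m * (e * Real.exp 1) / 3 ≤ m * (e * 2.7182818286) / 3 := by linarith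
  calc ‖K z₀‖ ≤ ‖Q l‖ + ‖Q z₀ - Q l‖ := h1
    _ ≤ A * (e * 1.07) + 0.907 * (m * e) := by linarith
    _ = (1.07 * A + 0.907 * m) * e := by ring

end H12L
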