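import Pool.Agent.Lib.H12L.Defs
import Pool.Agent.Lib.H12L.T2

/-! # H12L, chunk T2B (M): the spreading lemma with a general weight -/

namespace H12L

/-- (T2b, S/M) PROOF. As `H12S.spread` (file `H12S/S3.lean`): `m = B exp c₀` is a first bound, then the supremum. -/
theorem spread {K : ℂ → ℂ} (hK : Differentiable ℂ K) {φ : ℂ → ℝ} (hφ : Semi φ) {c₀ : ℝ}
    (hg : ∀ z : ℂ, 7 / 2 * ‖z‖ ^ 2 - c₀ ≤ φ z) {Λ : Set ℂ}
    (hd : ∀ z : ℂ, ∃ l ∈ Λ, ‖l - z‖ ≤ 1 / 8) {A B : ℝ} (hA0 : 0 ≤ A)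
    (hB0 : 0 ≤ B) (hB : ∀ z : ℂ, ‖K z‖ ≤ B * Real.exp (7 / 2 * ‖z‖ ^ 2))
    (hA : ∀ l ∈ Λ, ‖K l‖ ≤ A * Real.exp (φ l)) (z : ℂ) :
    ‖K z‖ ≤ 12 * A * Real.exp (φ z) := by
  have hK₀ : ∀ z : ℂ, ‖K z‖ ≤ (B * Real.exp c₀) * Real.exp (φ z) := by
    intro z
    refine (hB z).trans ?_
    rw [mul_assoc, ← Real.exp_add]
    refine mul_le_mul_of_nonneg_left (Real.exp_le_exp.2 ?_) hB0
    have h := hg z
    linarith
  set g : ℂ → ℝ := fun z => ‖K z‖ * Real.exp (-(φ z)) with hgdef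
  have hgle : ∀ (w : ℂ) (t : ℝ), g w ≤ t ↔ ‖K w‖ ≤ t * Real.exp (φ w) := by
    intro w t
    simp only [hgdef]
    rw [Real.exp_neg, ← div_eq_mul_inv, div_le_iff₀ (Real.exp_pos _)]
  have hbdd : BddAbove (Set.range g) := by
    refine ⟨B * Real.exp c₀, ?_⟩
    rintro _ ⟨w, rfl⟩
    exact (hgle w _).2 (hK₀ w)
  set m : ℝ := ⨆ w, g w with hm
  have hm0 : 0 ≤ m := by
    refine le_trans ?_ (le_ciSup hbdd 0)
    simp only [hgdef]
    positivity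
  have hKm : ∀ w : ℂ, ‖K w‖ ≤ m * Real.exp (φ w) := fun w =>
    (hgle w m).1 (le_ciSup hbdd w)
  have hstep := spread_step hK hφ hd hA0 hm0 hA hKm
  have hmle : m ≤ 1.07 * A + 0.907 * m := ciSup_le fun w => (hgle w _).2 (hstep w)
  have hmA : m ≤ 12 * A := by
    norm_num at hmle
    linarith
  refine (hKm z).trans ?_
  exact mul_le_mul_of_nonneg_right hmA (Real.exp_pos _).le

end H12L
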