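import Pool.Agent.Lib.H12L.Defs
import Pool.Agent.Lib.H12L.T1
import Pool.Agent.Lib.H12L.T1B
import Pool.Agent.Lib.H12L.T2
import Pool.Agent.Lib.H12L.T2B

/-! # H12L, chunk T3 (S/M): spreading of an exponential bound -/

namespace H12L

/-- (T3, S/M) PROOF. `R = ‖z‖`, `φ = wt τ R`. `spread` with the constant `A * exp (τ ^ 2 / 16)` (`wt_ge`), `wt_semi`,
`wt_growth` (`c₀ = 28 R ^ 2`); `wt τ R z ≤ τ ‖z‖` (`wt_le` with `w = z`). -/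
theorem spread_exp {K : ℂ → ℂ} (hK : Differentiable ℂ K) {Λ : Set ℂ}
    (hd : ∀ z : ℂ, ∃ l ∈ Λ, ‖l - z‖ ≤ 1 / 8) {A B τ : ℝ} (hA0 : 0 ≤ A) (hτ : 0 ≤ τ)
    (hB0 : 0 ≤ B) (hB : ∀ z : ℂ, ‖K z‖ ≤ B * Real.exp (7 / 2 * ‖z‖ ^ 2))
    (hA : ∀ l ∈ Λ, ‖K l‖ ≤ A * Real.exp (τ * ‖l‖)) (z : ℂ) :
    ‖K z‖ ≤ 12 * (A * Real.exp (τ ^ 2 / 16)) * Real.exp (τ * ‖z‖) := by
  have hR : 0 ≤ ‖z‖ := norm_nonneg z
  have hA' : 0 ≤ A * Real.exp (τ ^ 2 / 16) := mul_nonneg hA0 (Real.exp_pos _).le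
  have h1 := spread hK (wt_semi hτ hR) (c₀ := 28 * ‖z‖ ^ 2) (wt_growth hτ hR) hd hA' hB0 hB (fun l hl => by
    refine (hA l hl).trans ?_
    rw [mul_assoc, ← Real.exp_add]
    apply mul_le_mul_of_nonneg_left _ hA0
    apply Real.exp_le_exp.2
    have := wt_ge hτ hR l
    linarith) z
  refine h1.trans ?_
  apply mul_le_mul_of_nonneg_left _ (by positivity)
  apply Real.exp_le_exp.2
  have h2 := wt_le (R := ‖z‖) hτ (le_refl ‖z‖) z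
  simpa using h2

end H12L
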