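import Pool.Agent.Lib.H12L.Defs
import Pool.Agent.Lib.H12L.T3
import Pool.Agent.Lib.H12L.L1
import Pool.Agent.Lib.H12L.L2B
import Pool.Agent.Lib.H12L.L3
import Pool.Agent.Lib.H12L.L3B

/-! # H12L, chunk L4 (M): localized signals are determined up to a phase -/

namespace H12L

open MeasureTheory ComplexConjugate H12S

/-- (L4, M) PROOF. `u = ⟨a, -c⟩`, `v = ⟨b, -d⟩`, `p₀ = ⟨x₀, -w₀⟩`, `F₁ = KF p₀ f`, `F₂ = KF p₀ h`. As in `dense_lat`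
(`H12S/R1.lean`) every `z` is within `δ ≤ 1/8` of the lattice `Λ = {m u + n v}`, and `‖F₁‖ = ‖F₂‖` on `Λ`
(`samples_Psi`). `KF_localized` for `F₁`, `spread_exp` (with `KF_growth`) for `F₂`; let `A` be the larger constant.
Choose `ε > 0` with `2 τ (2 δ + ε) < π` and `p`, `q` from `short_vectors`. `plane_eq`: `‖F₁‖ = ‖F₂‖` everywhere.
`eq_of_norm_eq` (`H12S/C4.lean`): `F₂ = u₀ F₁`, so `Psi h = u₀ Psi f` and `eq_of_Psi`. -/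
theorem localized_unique {a b c d δ τ x₀ w₀ : ℝ} (hδ : 0 < δ) (hδ8 : δ ≤ 1 / 8) (hτ0 : 0 ≤ τ)
    (hτ : 4 * τ * δ < Real.pi) (hD : DenseWithin δ a b c d) {f h : ℝ → ℂ}
    (hf : MemLp f 2 volume) (hh : MemLp h 2 volume) (hloc : Localized τ x₀ w₀ f)
    (H : SameSamples a b c d f h) : PhaseEq f h := by
  have hd : ∀ z : ℂ, ∃ m n : ℤ, ‖(m * (⟨a, -c⟩ : ℂ) + n * (⟨b, -d⟩ : ℂ)) - z‖ ≤ δ := by
    intro z
    obtain ⟨m, n, h1⟩ := hD z.re (-z.im)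
    refine ⟨m, n, ?_⟩
    have e1 : ((m * (⟨a, -c⟩ : ℂ) + n * (⟨b, -d⟩ : ℂ)) - z).re = a * m + b * n - z.re := by
      simp
      ring
    have e2 : ((m * (⟨a, -c⟩ : ℂ) + n * (⟨b, -d⟩ : ℂ)) - z).im = -(c * m + d * n - -z.im) := by
      simp
      ring
    have h2 : ‖(m * (⟨a, -c⟩ : ℂ) + n * (⟨b, -d⟩ : ℂ)) - z‖ ^ 2 ≤ δ ^ 2 := by
      rw [Complex.sq_norm, Complex.normSq_apply, e1, e2]
      refine le_trans (le_of_eq ?_) h1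
      ring
    exact (pow_le_pow_iff_left₀ (norm_nonneg _) hδ.le two_ne_zero).1 h2
  have hs : ∀ m n : ℤ, ‖KF ⟨x₀, -w₀⟩ f (m * (⟨a, -c⟩ : ℂ) + n * (⟨b, -d⟩ : ℂ))‖ =
      ‖KF ⟨x₀, -w₀⟩ h (m * (⟨a, -c⟩ : ℂ) + n * (⟨b, -d⟩ : ℂ))‖ := by
    intro m n
    unfold KF
    rw [norm_mul, norm_mul, samples_Psi H]
  have h₁ := KF_differentiable hf ⟨x₀, -w₀⟩
  have h₂ := KF_differentiable hh ⟨x₀, -w₀⟩
  obtain ⟨A, hA0, hA⟩ := KF_localized hτ0 hloc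
  obtain ⟨B, hB0, hB⟩ := KF_growth hh ⟨x₀, -w₀⟩
  have hb₂ : ∀ z : ℂ, ‖KF ⟨x₀, -w₀⟩ h z‖ ≤ 12 * (A * Real.exp (τ ^ 2 / 16)) * Real.exp (τ * ‖z‖) := by
    refine spread_exp h₂ (Λ := {z : ℂ | ∃ m n : ℤ, z = m * (⟨a, -c⟩ : ℂ) + n * (⟨b, -d⟩ : ℂ)}) (fun z => ?_) hA0 hτ0 hB0 hB ?_
    · obtain ⟨m, n, h1⟩ := hd z
      exact ⟨_, ⟨m, n, rfl⟩, h1.trans hδ8⟩
    · rintro l ⟨m, n, rfl⟩
      rw [← hs]
      exact hA _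
  have hA1 : A ≤ 12 * (A * Real.exp (τ ^ 2 / 16)) := by
    have h1 : 1 ≤ Real.exp (τ ^ 2 / 16) := Real.one_le_exp (by positivity)
    have h2 : A * 1 ≤ A * Real.exp (τ ^ 2 / 16) := mul_le_mul_of_nonneg_left h1 hA0
    have h3 : 0 ≤ A * Real.exp (τ ^ 2 / 16) := by positivity
    linarith
  have hb₁ : ∀ z : ℂ, ‖KF ⟨x₀, -w₀⟩ f z‖ ≤ 12 * (A * Real.exp (τ ^ 2 / 16)) * Real.exp (τ * ‖z‖) := fun z =>
    (hA z).trans (mul_le_mul_of_nonneg_right hA1 (Real.exp_pos _).le)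
  have hg : 0 < Real.pi - 4 * τ * δ := by linarith
  have hτ1 : 0 < 2 * τ + 1 := by linarith
  obtain ⟨ε, hε⟩ : ∃ ε : ℝ, ε = (Real.pi - 4 * τ * δ) / (2 * τ + 1) := ⟨_, rfl⟩
  have hε0 : 0 < ε := by
    rw [hε]
    exact div_pos hg hτ1
  have hε1 : (2 * τ + 1) * ε = Real.pi - 4 * τ * δ := by
    rw [hε]
    field_simp
  have hkey : 2 * τ * (2 * δ + ε) < Real.pi := by nlinarith
  obtain ⟨p, q, ⟨m1, n1, hp⟩, ⟨m2, n2, hq⟩, hpn, hqn, hpq⟩ := short_vectors hδ hε0 hd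
  have hle : ∀ r : ℂ, ‖r‖ ≤ 2 * δ + ε → 2 * τ * ‖r‖ < Real.pi := fun r hr =>
    lt_of_le_of_lt (mul_le_mul_of_nonneg_left hr (by linarith)) hkey
  have hpl : ∀ z : ℂ, ‖KF ⟨x₀, -w₀⟩ f z‖ = ‖KF ⟨x₀, -w₀⟩ h z‖ := by
    refine plane_eq h₁ h₂ (by positivity) hτ0 hb₁ hb₂ (hle p hpn) (hle q hqn) hpq fun m n => ?_
    have h1 := hs (m * m1 + n * m2) (m * n1 + n * n2)
    have h2 : (((m * m1 + n * m2 : ℤ) : ℂ) * (⟨a, -c⟩ : ℂ) + ((m * n1 + n * n2 : ℤ) : ℂ) * (⟨b, -d⟩ : ℂ)) = m * p + n * q := by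
      rw [hp, hq]
      push_cast
      ring
    rwa [h2] at h1
  obtain ⟨u, hu, hu1⟩ := eq_of_norm_eq h₁ h₂ fun z _ => hpl z
  refine ⟨u, hu, eq_of_Psi hf hh fun z => ?_⟩
  have h1 := hu1 z
  unfold KF at h1
  have h2 : Complex.exp (-Real.pi * z ^ 2 / 2 - Real.pi * conj (⟨x₀, -w₀⟩ : ℂ) * z) ≠ 0 := Complex.exp_ne_zero _
  refine mul_left_cancel₀ h2 ?_
  rw [h1]
  ring

end H12L
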