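import Pool.Agent.Lib.H12L.Defs
import Pool.Agent.Lib.H12L.T3
import Pool.Agent.Lib.H12L.L2C
import Pool.Agent.Lib.H12L.L3
import Pool.Agent.Lib.H12L.L3B

/-! # H12L, chunk L4B (S/M): localized signals are determined up to a phase, sharp form -/

namespace H12L

open MeasureTheory ComplexConjugate H12S

/-- (L4b, S/M) PROOF. As `localized_unique` (file `L4.lean`), with `p = u = ⟨a, -c⟩`, `q = v = ⟨b, -d⟩` and `plane_eq'`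
instead of `short_vectors` and `plane_eq`: `‖u‖ = sqrt (a ^ 2 + c ^ 2)`, `p.re q.im - p.im q.re = -(a d - b c)`. -/
theorem localized_unique' {a b c d τ x₀ w₀ : ℝ} (hdet : a * d - b * c ≠ 0)
    (hD : DenseWithin (1 / 8) a b c d) (hτ0 : 0 ≤ τ)
    (h1 : 2 * τ * Real.sqrt (a ^ 2 + c ^ 2) < Real.pi)
    (h2 : 2 * τ * |a * d - b * c| < Real.pi * Real.sqrt (a ^ 2 + c ^ 2)) {f h : ℝ → ℂ}
    (hf : MemLp f 2 volume) (hh : MemLp h 2 volume) (hloc : Localized τ x₀ w₀ f)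
    (H : SameSamples a b c d f h) : PhaseEq f h := by
  have h1' := h1
  have h2' := h2
  clear h1 h2
  have hd : ∀ z : ℂ, ∃ m n : ℤ, ‖(m * (⟨a, -c⟩ : ℂ) + n * (⟨b, -d⟩ : ℂ)) - z‖ ≤ 1 / 8 := by
    intro z
    obtain ⟨m, n, h1⟩ := hD z.re (-z.im)
    refine ⟨m, n, ?_⟩
    have e1 : ((m * (⟨a, -c⟩ : ℂ) + n * (⟨b, -d⟩ : ℂ)) - z).re = a * m + b * n - z.re := by
      simp
      ring
    have e2 : ((m * (⟨a, -c⟩ : ℂ) + n * (⟨b, -d⟩ : ℂ)) - z).im = -(c * m + d * n - -z.im) := by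
      simp
      ring
    have h2 : ‖(m * (⟨a, -c⟩ : ℂ) + n * (⟨b, -d⟩ : ℂ)) - z‖ ^ 2 ≤ (1 / 8) ^ 2 := by
      rw [Complex.sq_norm, Complex.normSq_apply, e1, e2]
      refine le_trans (le_of_eq ?_) h1
      ring
    exact (pow_le_pow_iff_left₀ (norm_nonneg _) (by norm_num) two_ne_zero).1 h2
  have hs : ∀ m n : ℤ, ‖KF ⟨x₀, -w₀⟩ f (m * (⟨a, -c⟩ : ℂ) + n * (⟨b, -d⟩ : ℂ))‖ =
      ‖KF ⟨x₀, -w₀⟩ h (m * (⟨a, -c⟩ : ℂ) + n * (⟨b, -d⟩ : ℂ))‖ := by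
    intro m n
    unfold KF
    rw [norm_mul, norm_mul, samples_Psi H]
  have h₁ := KF_differentiable hf ⟨x₀, -w₀⟩
  have h₂ := KF_differentiable hh ⟨x₀, -w₀⟩
  obtain ⟨A, hA0, hA⟩ := KF_localized hτ0 hloc
  obtain ⟨B, hB0, hB⟩ := KF_growth hh ⟨x₀, -w₀⟩
  have hb₂ : ∀ z : ℂ, ‖KF ⟨x₀, -w₀⟩ h z‖ ≤ 12 * (A * Real.exp (τ ^ 2 / 16)) * Real.exp (τ * ‖z‖) := by
    refine spread_exp h₂ (Λ := {z : ℂ | ∃ m n : ℤ, z = m * (⟨a, -c⟩ : ℂ) + n * (⟨b, -d⟩ : ℂ)}) (fun z => ?_) hA0 hτ0 hB0 hB ?_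
    · obtain ⟨m, n, h1⟩ := hd z
      exact ⟨_, ⟨m, n, rfl⟩, h1⟩
    · rintro l ⟨m, n, rfl⟩
      rw [← hs]
      exact hA _
  have hA1 : A ≤ 12 * (A * Real.exp (τ ^ 2 / 16)) := by
    have h1 : 1 ≤ Real.exp (τ ^ 2 / 16) := Real.one_le_exp (by positivity)
    have h2 : A * 1 ≤ A * Real.exp (τ ^ 2 / 16) := mul_le_mul_of_nonneg_left h1 hA0
    have h3 : 0 ≤ A * Real.exp (τ ^ 2 / 16) := by positivity
    linarith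
  have hb₁ : ∀ z : ℂ, ‖KF ⟨x₀, -w₀⟩ f z‖ ≤ 12 * (A * Real.exp (τ ^ 2 / 16)) * Real.exp (τ * ‖z‖) := fun z =>
    (hA z).trans (mul_le_mul_of_nonneg_right hA1 (Real.exp_pos _).le)
  have hu1n : ‖(⟨a, -c⟩ : ℂ)‖ = Real.sqrt (a ^ 2 + c ^ 2) := by
    rw [Complex.norm_def, Complex.normSq_apply]
    congr 1
    ring
  have hdd : (⟨a, -c⟩ : ℂ).re * (⟨b, -d⟩ : ℂ).im - (⟨a, -c⟩ : ℂ).im * (⟨b, -d⟩ : ℂ).re =
      -(a * d - b * c) := by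
    ring
  have hpl : ∀ z : ℂ, ‖KF ⟨x₀, -w₀⟩ f z‖ = ‖KF ⟨x₀, -w₀⟩ h z‖ := by
    refine plane_eq' h₁ h₂ (by positivity) hτ0 hb₁ hb₂ (p := ⟨a, -c⟩) (q := ⟨b, -d⟩) ?_ ?_ ?_ hs
    · rw [hu1n]
      exact h1'
    · rw [hdd, abs_neg, hu1n]
      exact h2'
    · rw [hdd]
      exact neg_ne_zero.2 hdet
  obtain ⟨u, hu, hu1⟩ := eq_of_norm_eq h₁ h₂ fun z _ => hpl z
  refine ⟨u, hu, eq_of_Psi hf hh fun z => ?_⟩
  have h1 := hu1 z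
  unfold KF at h1
  have h2 : Complex.exp (-Real.pi * z ^ 2 / 2 - Real.pi * conj (⟨x₀, -w₀⟩ : ℂ) * z) ≠ 0 := Complex.exp_ne_zero _
  refine mul_left_cancel₀ h2 ?_
  rw [h1]
  ring

end H12L
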