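import Pool.Agent.Lib.H12L.Defs

/-! # H12L, chunk L5 (M): finite Gabor sums are localized -/

namespace H12L

open MeasureTheory ComplexConjugate H12S H12G

theorem l5_re : ((-2 * Real.pi : ℂ)).re < 0 := by
  have h : (-2 * Real.pi : ℂ) = ((-2 * Real.pi : ℝ) : ℂ) := by push_cast; ring
  rw [h, Complex.ofReal_re]
  have := Real.pi_pos
  linarith

theorem l5_const : ‖((Real.pi : ℂ) / (2 * Real.pi)) ^ (1 / 2 : ℂ)‖ ≤ 1 := by
  have hpi : (Real.pi : ℂ) ≠ 0 := Complex.ofReal_ne_zero.mpr Real.pi_ne_zero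
  have h1 : (Real.pi : ℂ) / (2 * Real.pi) = ((1 / 2 : ℝ) : ℂ) := by
    push_cast
    field_simp
  rw [h1, Complex.norm_cpow_eq_rpow_re_of_pos (by norm_num)]
  apply Real.rpow_le_one (by norm_num) (by norm_num)
  norm_num

/-- (L5a, M) PROOF. `stft_eq` and the Gaussian integral (`integral_cexp_quadratic`, as in `H12G/G11.lean`):
`Psi f z = (1/2) ^ (1/2) exp (-π s ^ 2) exp ((2 π s + 2 π i w + 2 π z) ^ 2 / (8 π))`; with `z = x - i y` the norm of the
transform is `(1/2) ^ (1/2) exp (-(π / 2) ((x - s) ^ 2 + (y - w) ^ 2))`. -/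
theorem stft_atom (s w x y : ℝ) :
    ‖stft (fun t => Complex.exp (-Real.pi * (t - s) ^ 2) *
      Complex.exp (2 * Real.pi * Complex.I * w * t)) x y‖ ≤
      Real.exp (-(Real.pi / 2) * ((x - s) ^ 2 + (y - w) ^ 2)) := by
  unfold stft
  have hpi : (Real.pi : ℂ) ≠ 0 := Complex.ofReal_ne_zero.mpr Real.pi_ne_zero
  have h : (fun t : ℝ => Complex.exp (-Real.pi * (t - s) ^ 2) *
      Complex.exp (2 * Real.pi * Complex.I * w * t) *
      Complex.exp (-Real.pi * (t - x) ^ 2) *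
      Complex.exp (-2 * Real.pi * Complex.I * y * t)) = fun t : ℝ =>
      Complex.exp ((-2 * Real.pi : ℂ) * t ^ 2 +
      (2 * Real.pi * s + 2 * Real.pi * x + 2 * Real.pi * Complex.I * (w - y)) * t +
      (-Real.pi * s ^ 2 - Real.pi * x ^ 2)) := by
    funext t
    rw [← Complex.exp_add, ← Complex.exp_add, ← Complex.exp_add]
    congr 1
    ring
  rw [h, integral_cexp_quadratic l5_re]
  have e1 : (Real.pi / -(-2 * Real.pi) : ℂ) = Real.pi / (2 * Real.pi) := by
    congr 1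
    ring
  rw [e1, norm_mul, Complex.norm_exp]
  have e2 : ((-Real.pi * s ^ 2 - Real.pi * x ^ 2 : ℂ) - (2 * Real.pi * s + 2 * Real.pi * x +
      2 * Real.pi * Complex.I * (w - y)) ^ 2 / (4 * (-2 * Real.pi))) =
      ((-(Real.pi / 2) * ((x - s) ^ 2 + (y - w) ^ 2) : ℝ) : ℂ) +
      ((Real.pi * (s + x) * (w - y) : ℝ) : ℂ) * Complex.I := by
    push_cast
    field_simp
    ring_nf
    rw [Complex.I_sq]
    ring
  rw [e2, Complex.add_re, Complex.re_ofReal_mul, Complex.ofReal_re, Complex.I_re, mul_zero,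
    add_zero]
  exact mul_le_of_le_one_left (Real.exp_nonneg _) l5_const

end H12L
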