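import Pool.Agent.Lib.H12L.Defs
import Pool.Agent.Lib.H12L.L5

/-! # H12L, chunk L5B (M): finite Gabor sums are localized -/

namespace H12L

open MeasureTheory ComplexConjugate H12S H12G

theorem l5b_int (c : ℂ) (s w x y : ℝ) : Integrable (fun t : ℝ => c * Complex.exp (-Real.pi * (t - s) ^ 2) *
      Complex.exp (2 * Real.pi * Complex.I * w * t) * Complex.exp (-Real.pi * (t - x) ^ 2) *
      Complex.exp (-2 * Real.pi * Complex.I * y * t)) := by
  have h1 : Integrable (fun t : ℝ => c * Complex.exp ((-2 * Real.pi : ℂ) * (t : ℂ) ^ 2 +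
      (2 * Real.pi * s + 2 * Real.pi * x + 2 * Real.pi * Complex.I * w - 2 * Real.pi * Complex.I * y : ℂ) * t +
      (-Real.pi * s ^ 2 - Real.pi * x ^ 2 : ℂ))) := by
    refine Integrable.const_mul (integrable_cexp_quadratic' ?_ _ _) c
    have := Real.pi_pos
    simp [this]
  refine h1.congr (Filter.Eventually.of_forall fun t => ?_)
  simp only
  rw [mul_assoc c, mul_assoc c, mul_assoc c, ← Complex.exp_add, ← Complex.exp_add, ← Complex.exp_add]
  congr 2
  ring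

theorem l5b_stft {n : ℕ} (c : Fin n → ℂ) (s w : Fin n → ℝ) (x y : ℝ) :
    stft (fun t => ∑ i, c i * Complex.exp (-Real.pi * (t - s i) ^ 2) *
      Complex.exp (2 * Real.pi * Complex.I * w i * t)) x y =
    ∑ i, c i * stft (fun t => Complex.exp (-Real.pi * (t - s i) ^ 2) *
      Complex.exp (2 * Real.pi * Complex.I * w i * t)) x y := by
  unfold stft
  have h1 : ∀ t : ℝ, (∑ i, c i * Complex.exp (-Real.pi * (t - s i) ^ 2) *
      Complex.exp (2 * Real.pi * Complex.I * w i * t)) * Complex.exp (-Real.pi * (t - x) ^ 2) *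
      Complex.exp (-2 * Real.pi * Complex.I * y * t) =
      ∑ i, c i * Complex.exp (-Real.pi * (t - s i) ^ 2) *
      Complex.exp (2 * Real.pi * Complex.I * w i * t) * Complex.exp (-Real.pi * (t - x) ^ 2) *
      Complex.exp (-2 * Real.pi * Complex.I * y * t) := by
    intro t
    rw [Finset.sum_mul, Finset.sum_mul]
  simp_rw [h1]
  rw [integral_finsetSum _ fun i _ => l5b_int (c i) (s i) (w i) x y]
  refine Finset.sum_congr rfl fun i _ => ?_
  rw [← integral_const_mul]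
  refine integral_congr_ae (Filter.Eventually.of_forall fun t => ?_)
  simp only
  ring

theorem l5b_geom {a b p q ρ r : ℝ} (hρ : 0 ≤ ρ) (hr : 0 ≤ r) (hab : a ^ 2 + b ^ 2 = r ^ 2) (hpq : p ^ 2 + q ^ 2 ≤ ρ ^ 2) :
    r ^ 2 - 2 * ρ * r ≤ (a - p) ^ 2 + (b - q) ^ 2 := by
  have h1 : (a * p + b * q) ^ 2 ≤ (r * ρ) ^ 2 := by
    calc (a * p + b * q) ^ 2 ≤ (a ^ 2 + b ^ 2) * (p ^ 2 + q ^ 2) := by nlinarith [sq_nonneg (a * q - b * p)]
      _ ≤ r ^ 2 * ρ ^ 2 := by rw [hab]; gcongr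
      _ = (r * ρ) ^ 2 := by ring
  have h2 : a * p + b * q ≤ r * ρ := abs_le_of_sq_le_sq' h1 (by positivity) |>.2
  nlinarith [sq_nonneg p, sq_nonneg q]

/-- (L5b, S/M) PROOF. The transform is linear (every term is integrable against the exponential, it is in `L²`),
`stft_atom` for every term. By the triangle inequality in the plane, with `r` the distance of `(x, y)` from
`(x₀, w₀)`, the distance from `(s i, w i)` is at least `r - ρ`, so its square is at least `r ^ 2 - 2 ρ r` (also if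
`r < ρ`), and `-(π / 2) (r ^ 2 - 2 ρ r) = -(π / 2) r ^ 2 + π ρ r`. `C = ∑ ‖c i‖`. -/
theorem gabor_localized {n : ℕ} (c : Fin n → ℂ) (s w : Fin n → ℝ) {x₀ w₀ ρ : ℝ} (hρ : 0 ≤ ρ)
    (hsw : ∀ i, (s i - x₀) ^ 2 + (w i - w₀) ^ 2 ≤ ρ ^ 2) :
    Localized (Real.pi * ρ) x₀ w₀ (fun t => ∑ i, c i * Complex.exp (-Real.pi * (t - s i) ^ 2) *
      Complex.exp (2 * Real.pi * Complex.I * w i * t)) := by
  refine ⟨∑ i, ‖c i‖, fun x y => ?_⟩
  rw [l5b_stft]
  refine (norm_sum_le _ _).trans ?_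
  rw [Finset.sum_mul]
  refine Finset.sum_le_sum fun i _ => ?_
  rw [norm_mul]
  refine mul_le_mul_of_nonneg_left ((stft_atom _ _ _ _).trans (Real.exp_le_exp.2 ?_)) (norm_nonneg _)
  have hs0 : 0 ≤ (x - x₀) ^ 2 + (y - w₀) ^ 2 := by positivity
  have h1 := l5b_geom (a := x - x₀) (b := y - w₀) (p := s i - x₀) (q := w i - w₀) hρ
    (Real.sqrt_nonneg ((x - x₀) ^ 2 + (y - w₀) ^ 2)) (Real.sq_sqrt hs0).symm (hsw i)
  rw [Real.sq_sqrt hs0] at h1
  have h2 : (x - x₀ - (s i - x₀)) ^ 2 + (y - w₀ - (w i - w₀)) ^ 2 = (x - s i) ^ 2 + (y - w i) ^ 2 := by ring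
  rw [h2] at h1
  have hpi := Real.pi_pos
  nlinarith

end H12L
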