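import Pool.Agent.Lib.H12L.L4
import Pool.Agent.Lib.H12L.L5B

/-! # H12L, chunk L6 (S): finite Gabor sums in a disc -/

namespace H12L

open MeasureTheory ComplexConjugate H12S H12G

/-- (L6, S) PROOF. `localized_unique` with `τ = π ρ`, `gabor_localized`, `gaborSum_memLp` (`H12G/G11B.lean`). -/
theorem gabor_unique {a b c d δ x₀ w₀ ρ : ℝ} (hδ : 0 < δ) (hδ8 : δ ≤ 1 / 8) (hρ : 0 ≤ ρ)
    (hρδ : 4 * ρ * δ < 1) (hD : DenseWithin δ a b c d) {n : ℕ} (e : Fin n → ℂ) (s w : Fin n → ℝ)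
    (hsw : ∀ i, (s i - x₀) ^ 2 + (w i - w₀) ^ 2 ≤ ρ ^ 2) {f h : ℝ → ℂ}
    (hf : ∀ t, f t = ∑ i, e i * Complex.exp (-Real.pi * (t - s i) ^ 2) *
      Complex.exp (2 * Real.pi * Complex.I * w i * t))
    (hh : MemLp h 2 volume) (H : SameSamples a b c d f h) : PhaseEq f h := by
  have hfs : GaborSum f := ⟨n, e, s, w, hf⟩
  have hfe : f = fun t : ℝ => ∑ i, e i * Complex.exp (-Real.pi * (t - s i) ^ 2) *
      Complex.exp (2 * Real.pi * Complex.I * w i * t) := funext hf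
  have hloc : Localized (Real.pi * ρ) x₀ w₀ f := by
    rw [hfe]
    exact gabor_localized e s w hρ hsw
  refine localized_unique hδ hδ8 (mul_nonneg Real.pi_pos.le hρ) ?_ hD (gaborSum_memLp hfs).2 hh hloc H
  calc 4 * (Real.pi * ρ) * δ = Real.pi * (4 * ρ * δ) := by ring
    _ < Real.pi * 1 := mul_lt_mul_of_pos_left hρδ Real.pi_pos
    _ = Real.pi := mul_one _

end H12L
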