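import Pool.Agent.Lib.H12L.Defs2

/-! # H12L, chunk X1 (S): Gabor sums with a given transform -/

namespace H12L

open MeasureTheory ComplexConjugate H12S H12G

/-- (X1, S) PROOF. `Psi_gaborSum` in `H12G/G11.lean` (and `g11_integral` there) computes `Psi` of a Gabor sum: its exponents
are `π (s i + i w i)` and its coefficients are `e i * K i` with
`K i = (π / (2 π)) ^ (1 / 2) * exp (-π s i ^ 2 + π (s i + i w i) ^ 2 / 2)`, not zero. Take `e i = c i / K i`. -/
theorem exists_gab {n : ℕ} (c : Fin n → ℂ) (s w : Fin n → ℝ) :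
    ∃ e : Fin n → ℂ, ∀ z : ℂ, Psi (gab e s w) z = Complex.exp (Real.pi * z ^ 2 / 2) *
      ∑ i, c i * Complex.exp (Real.pi * (s i + Complex.I * w i) * z) := by
  have hpi : (Real.pi : ℂ) ≠ 0 := Complex.ofReal_ne_zero.mpr Real.pi_ne_zero
  have hK : ∀ i, ((Real.pi / (2 * Real.pi : ℂ)) ^ (1 / 2 : ℂ) *
        Complex.exp (-Real.pi * s i ^ 2 + Real.pi * (s i + Complex.I * w i) ^ 2 / 2)) ≠ 0 := by
    intro i
    refine mul_ne_zero ?_ (Complex.exp_ne_zero _)
    rw [Complex.cpow_ne_zero_iff]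
    left
    exact div_ne_zero hpi (mul_ne_zero two_ne_zero hpi)
  refine ⟨fun i => c i / ((Real.pi / (2 * Real.pi : ℂ)) ^ (1 / 2 : ℂ) *
        Complex.exp (-Real.pi * s i ^ 2 + Real.pi * (s i + Complex.I * w i) ^ 2 / 2)), fun z => ?_⟩
  unfold Psi gab
  have h1 : (fun t : ℝ => (∑ i, c i / ((Real.pi / (2 * Real.pi : ℂ)) ^ (1 / 2 : ℂ) *
        Complex.exp (-Real.pi * s i ^ 2 + Real.pi * (s i + Complex.I * w i) ^ 2 / 2)) *
        Complex.exp (-Real.pi * (t - s i) ^ 2) * Complex.exp (2 * Real.pi * Complex.I * w i * t)) *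
        Complex.exp (-Real.pi * t ^ 2 + 2 * Real.pi * t * z)) =
      fun t : ℝ => ∑ i, c i / ((Real.pi / (2 * Real.pi : ℂ)) ^ (1 / 2 : ℂ) *
        Complex.exp (-Real.pi * s i ^ 2 + Real.pi * (s i + Complex.I * w i) ^ 2 / 2)) *
      (Complex.exp (-Real.pi * (t - s i) ^ 2) *
      Complex.exp (2 * Real.pi * Complex.I * w i * t) *
      Complex.exp (-Real.pi * t ^ 2 + 2 * Real.pi * t * z)) := by
    funext t
    rw [Finset.sum_mul]
    refine Finset.sum_congr rfl fun i _ => ?_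
    ring
  rw [h1, integral_finsetSum _ (fun i _ => (g11_integrable (s i) (w i) z).const_mul _),
    Finset.mul_sum]
  refine Finset.sum_congr rfl fun i _ => ?_
  rw [integral_const_mul, g11_integral]
  have hi := hK i
  generalize ((Real.pi / (2 * Real.pi : ℂ)) ^ (1 / 2 : ℂ) *
        Complex.exp (-Real.pi * s i ^ 2 + Real.pi * (s i + Complex.I * w i) ^ 2 / 2)) = K at hi ⊢
  field_simp

end H12L
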