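import Pool.Agent.Lib.H12L.Defs2
import Pool.Agent.Lib.H12L.X1

/-! # H12L, chunk X2 (M): counterexamples at the critical radius -/

namespace H12L

open MeasureTheory ComplexConjugate H12S H12G

theorem x2_norm {A B : ℂ} (h : Real.sin (A.im - B.im) = 0) :
    ‖(1 + Complex.I) * Complex.exp A + (1 - Complex.I) * Complex.exp B‖ =
      ‖(1 - Complex.I) * Complex.exp A + (1 + Complex.I) * Complex.exp B‖ := by
  rw [← sq_eq_sq₀ (norm_nonneg _) (norm_nonneg _), Complex.sq_norm, Complex.sq_norm, Complex.normSq_apply, Complex.normSq_apply]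
  rw [Real.sin_sub] at h
  simp only [Complex.add_re, Complex.add_im, Complex.sub_re, Complex.sub_im, Complex.mul_re, Complex.mul_im, Complex.one_re,
    Complex.one_im, Complex.I_re, Complex.I_im, Complex.exp_re, Complex.exp_im]
  linear_combination (-8 * Real.exp A.re * Real.exp B.re) * h

/-- (X2a, S/M) PROOF. `D = a d - b c`, `κ = (π / (2 D)) (a + i c)`, `κ₀ = π (x₀ + i w₀)`,
`s = x₀ ± a / (2 D)`, `w = w₀ ± c / (2 D)`, so the exponents `π (s + i w)` are `κ₀ ± κ`. `exists_gab` with the coefficients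
`1 + i, 1 - i` gives `f` and with `1 - i, 1 + i` gives `h`:
`Psi f z = exp (π z ^ 2 / 2 + κ₀ z) ((1 + i) E + (1 - i) / E)`,
`Psi h z = exp (π z ^ 2 / 2 + κ₀ z) ((1 - i) E + (1 + i) / E)`, `E = exp (κ z)`. At `z = m u + n v`, `u = ⟨a, -c⟩`,
`v = ⟨b, -d⟩`: `2 Im (κ z) = (π / D) n (-(a d) + b c) = -π n`, so `E = ± conj E` and `|Psi f z| = |Psi h z|`:
`conj ((1 + i) E + (1 - i) / E) = ± ((1 - i) E + (1 + i) / E)`. Conclude with `stft_norm_iff` (as in
`H12S/R1.lean`: `samples_Psi`, `r1_arg`). -/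
theorem counter_samples {a b c d : ℝ} (hdet : a * d - b * c ≠ 0) (x₀ w₀ : ℝ) {e e' : Fin 2 → ℂ}
    {s w : Fin 2 → ℝ} (hs : s = ![x₀ + a / (2 * (a * d - b * c)), x₀ - a / (2 * (a * d - b * c))])
    (hw : w = ![w₀ + c / (2 * (a * d - b * c)), w₀ - c / (2 * (a * d - b * c))])
    (he : ∀ z : ℂ, Psi (gab e s w) z = Complex.exp (Real.pi * z ^ 2 / 2) *
      ∑ i, (![1 + Complex.I, 1 - Complex.I] : Fin 2 → ℂ) i *
        Complex.exp (Real.pi * (s i + Complex.I * w i) * z))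
    (he' : ∀ z : ℂ, Psi (gab e' s w) z = Complex.exp (Real.pi * z ^ 2 / 2) *
      ∑ i, (![1 - Complex.I, 1 + Complex.I] : Fin 2 → ℂ) i *
        Complex.exp (Real.pi * (s i + Complex.I * w i) * z)) :
    SameSamples a b c d (gab e s w) (gab e' s w) := by
  intro m n
  rw [stft_norm_iff, he, he', norm_mul, norm_mul]
  refine congrArg (fun r : ℝ => ‖Complex.exp (Real.pi * (((a * m + b * n : ℝ) : ℂ) - Complex.I * ((c * m + d * n : ℝ) : ℂ)) ^ 2 / 2)‖ * r) ?_
  rw [Fin.sum_univ_two, Fin.sum_univ_two, hs, hw]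
  simp only [Matrix.cons_val_zero, Matrix.cons_val_one]
  apply x2_norm
  have h1 : ((Real.pi * (((x₀ + a / (2 * (a * d - b * c)) : ℝ) : ℂ) + Complex.I * ((w₀ + c / (2 * (a * d - b * c)) : ℝ) : ℂ)) *
      (((a * m + b * n : ℝ) : ℂ) - Complex.I * ((c * m + d * n : ℝ) : ℂ))) : ℂ).im -
      ((Real.pi * (((x₀ - a / (2 * (a * d - b * c)) : ℝ) : ℂ) + Complex.I * ((w₀ - c / (2 * (a * d - b * c)) : ℝ) : ℂ)) *
      (((a * m + b * n : ℝ) : ℂ) - Complex.I * ((c * m + d * n : ℝ) : ℂ))) : ℂ).im = (-n : ℤ) * Real.pi := by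
    simp only [Complex.mul_im, Complex.mul_re, Complex.add_re, Complex.add_im, Complex.sub_re, Complex.sub_im, Complex.ofReal_re,
      Complex.ofReal_im, Complex.I_re, Complex.I_im]
    push_cast
    field_simp
    ring
  rw [h1]
  exact Real.sin_int_mul_pi _

/-- (X2b, S/M) PROOF. If `h = u f` a.e., then `Psi h = u Psi f`, so with `E = exp (κ z)` (see above; `κ ≠ 0`, because
`a + i c ≠ 0` by `hdet`): `(1 - i) E + (1 + i) / E = u ((1 + i) E + (1 - i) / E)` for all `z`, i.e. for all `E ≠ 0`. `E = 1`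
(`z = 0`): `u = 1`. `E = i` (`z = i π / (2 κ)`): `(1 - i) i - i (1 + i) = 2`, `(1 + i) i - i (1 - i) = -2`, so `u = -1`. -/
theorem counter_ne {a b c d : ℝ} (hdet : a * d - b * c ≠ 0) (x₀ w₀ : ℝ) {e e' : Fin 2 → ℂ}
    {s w : Fin 2 → ℝ} (hs : s = ![x₀ + a / (2 * (a * d - b * c)), x₀ - a / (2 * (a * d - b * c))])
    (hw : w = ![w₀ + c / (2 * (a * d - b * c)), w₀ - c / (2 * (a * d - b * c))])
    (he : ∀ z : ℂ, Psi (gab e s w) z = Complex.exp (Real.pi * z ^ 2 / 2) *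
      ∑ i, (![1 + Complex.I, 1 - Complex.I] : Fin 2 → ℂ) i *
        Complex.exp (Real.pi * (s i + Complex.I * w i) * z))
    (he' : ∀ z : ℂ, Psi (gab e' s w) z = Complex.exp (Real.pi * z ^ 2 / 2) *
      ∑ i, (![1 - Complex.I, 1 + Complex.I] : Fin 2 → ℂ) i *
        Complex.exp (Real.pi * (s i + Complex.I * w i) * z)) :
    ¬ PhaseEq (gab e s w) (gab e' s w) := by
  rintro ⟨u, _, hu⟩
  have h1 : ∀ z, Psi (gab e' s w) z = u * Psi (gab e s w) z := by
    intro z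
    unfold Psi
    rw [← integral_const_mul]
    refine integral_congr_ae ?_
    filter_upwards [hu] with t ht
    rw [ht, mul_assoc]
  have h2 : ∀ z : ℂ, Complex.exp (Real.pi * z ^ 2 / 2) * ((1 - Complex.I) * Complex.exp (Real.pi * (s 0 + Complex.I * w 0) * z) +
      (1 + Complex.I) * Complex.exp (Real.pi * (s 1 + Complex.I * w 1) * z)) =
      u * (Complex.exp (Real.pi * z ^ 2 / 2) * ((1 + Complex.I) * Complex.exp (Real.pi * (s 0 + Complex.I * w 0) * z) +
      (1 - Complex.I) * Complex.exp (Real.pi * (s 1 + Complex.I * w 1) * z))) := by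
    intro z
    have h3 := h1 z
    rw [he, he', Fin.sum_univ_two, Fin.sum_univ_two] at h3
    exact h3
  have h3 := h2 0
  simp only [mul_zero, Complex.exp_zero, mul_one] at h3
  have hu1 : u = 1 := by
    have h4 : (2 : ℂ) = u * 2 := by
      have h5 : Complex.exp (Real.pi * (0 : ℂ) ^ 2 / 2) = 1 := by
        rw [zero_pow two_ne_zero, mul_zero, zero_div, Complex.exp_zero]
      rw [h5] at h3
      linear_combination h3
    have h6 : (2 : ℂ) ≠ 0 := two_ne_zero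
    have h7 : u * 2 = 1 * 2 := by rw [← h4, one_mul]
    exact mul_right_cancel₀ h6 h7
  have hD : ((2 * (a * d - b * c) : ℝ) : ℂ) ≠ 0 := by
    rw [Ne, Complex.ofReal_eq_zero]
    exact mul_ne_zero two_ne_zero hdet
  have hpi : (Real.pi : ℂ) ≠ 0 := by exact_mod_cast Real.pi_ne_zero
  have hac : (a : ℂ) + Complex.I * c ≠ 0 := by
    intro h4
    have h5 := congrArg Complex.re h4
    have h6 := congrArg Complex.im h4
    simp at h5 h6
    apply hdet
    rw [h5, h6]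
    ring
  obtain ⟨κ, hκ⟩ : ∃ κ : ℂ, κ = Real.pi * (a + Complex.I * c) / ((2 * (a * d - b * c) : ℝ) : ℂ) := ⟨_, rfl⟩
  have hκ0 : κ ≠ 0 := by
    rw [hκ]
    exact div_ne_zero (mul_ne_zero hpi hac) hD
  obtain ⟨κ₀, hκ₀⟩ : ∃ κ₀ : ℂ, κ₀ = Real.pi * (x₀ + Complex.I * w₀) := ⟨_, rfl⟩
  have e0 : (Real.pi : ℂ) * ((s 0 : ℂ) + Complex.I * w 0) = κ₀ + κ := by
    rw [hs, hw, hκ, hκ₀]
    simp only [Matrix.cons_val_zero]
    rw [Complex.ofReal_add, Complex.ofReal_add, Complex.ofReal_div, Complex.ofReal_div]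
    ring
  have e1 : (Real.pi : ℂ) * ((s 1 : ℂ) + Complex.I * w 1) = κ₀ - κ := by
    rw [hs, hw, hκ, hκ₀]
    simp only [Matrix.cons_val_one, Matrix.cons_val_zero]
    rw [Complex.ofReal_sub, Complex.ofReal_sub, Complex.ofReal_div, Complex.ofReal_div]
    ring
  obtain ⟨z, hz⟩ : ∃ z : ℂ, κ * z = Real.pi / 2 * Complex.I := ⟨Real.pi / 2 * Complex.I / κ, by rw [mul_div_cancel₀ _ hκ0]⟩
  have h8 := h2 z
  have e2 : Complex.exp ((κ₀ + κ) * z) = Complex.exp (κ₀ * z) * Complex.I := by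
    rw [add_mul, hz, Complex.exp_add, Complex.exp_pi_div_two_mul_I]
  have e3 : Complex.exp ((κ₀ - κ) * z) = Complex.exp (κ₀ * z) / Complex.I := by
    rw [sub_mul, hz, Complex.exp_sub, Complex.exp_pi_div_two_mul_I]
  rw [e0, e1, e2, e3, hu1, one_mul] at h8
  have h9 : Complex.exp (Real.pi * z ^ 2 / 2) * Complex.exp (κ₀ * z) ≠ 0 := mul_ne_zero (Complex.exp_ne_zero _) (Complex.exp_ne_zero _)
  apply h9
  have hI : Complex.exp (κ₀ * z) / Complex.I = -Complex.I * Complex.exp (κ₀ * z) := by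
    rw [div_eq_iff Complex.I_ne_zero]
    linear_combination Complex.exp (κ₀ * z) * Complex.I_mul_I
  rw [hI] at h8
  linear_combination (1 / 4 : ℂ) * h8 + (Complex.exp (Real.pi * z ^ 2 / 2) * Complex.exp (κ₀ * z)) * Complex.I_mul_I

end H12L
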