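import Pool.Agent.Lib.H12L.Defs2
import Pool.Agent.Lib.H12L.L4B
import Pool.Agent.Lib.H12L.L5B
import Pool.Agent.Lib.H12L.X2

/-! # H12L, chunk X3 (S/M): the critical radius -/

namespace H12L

open MeasureTheory ComplexConjugate H12S H12G

/-- (X3a, S) PROOF. `localized_unique'` with `τ = π ρ` and `gabor_localized` (unfold `gab`), `gaborSum_memLp`
(`H12G/G11B.lean`). -/
theorem gaborIn_unique {a b c d ρ x₀ w₀ : ℝ} (hdet : a * d - b * c ≠ 0)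
    (hD : DenseWithin (1 / 8) a b c d) (hρ : 0 ≤ ρ) (h1 : 4 * ρ ^ 2 * (a ^ 2 + c ^ 2) < 1)
    (h2 : 4 * ρ ^ 2 * (a * d - b * c) ^ 2 < a ^ 2 + c ^ 2) {f h : ℝ → ℂ}
    (hf : GaborIn ρ x₀ w₀ f) (hh : MemLp h 2 volume) (H : SameSamples a b c d f h) :
    PhaseEq f h := by
  obtain ⟨n, e, s, w, hsw, hfe⟩ := hf
  have hf' : f = gab e s w := funext hfe
  have hpi := Real.pi_pos
  have hloc : Localized (Real.pi * ρ) x₀ w₀ f := by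
    rw [hf']
    exact gabor_localized e s w hρ hsw
  have hmem : MemLp f 2 volume := (gaborSum_memLp ⟨n, e, s, w, hfe⟩).2
  have hq0 : 0 ≤ a ^ 2 + c ^ 2 := by positivity
  refine localized_unique' hdet hD (mul_nonneg hpi.le hρ) ?_ ?_ hmem hh hloc H
  · have h3 : (2 * ρ * Real.sqrt (a ^ 2 + c ^ 2)) ^ 2 < 1 ^ 2 := by
      rw [mul_pow, Real.sq_sqrt hq0]
      nlinarith
    have h4 : 2 * ρ * Real.sqrt (a ^ 2 + c ^ 2) < 1 := lt_of_pow_lt_pow_left₀ 2 (by norm_num) h3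
    nlinarith
  · have h3 : 2 * ρ * |a * d - b * c| < Real.sqrt (a ^ 2 + c ^ 2) := by
      refine Real.lt_sqrt_of_sq_lt ?_
      rw [mul_pow, sq_abs]
      nlinarith
    nlinarith

/-- (X3b, S) PROOF. `exists_gab` (twice), `counter_samples`, `counter_ne`; the shifts have the distance
`sqrt (a ^ 2 + c ^ 2) / (2 |a d - b c|) ≤ ρ` from `(x₀, w₀)`. -/
theorem exists_counter {a b c d ρ : ℝ} (hdet : a * d - b * c ≠ 0) (x₀ w₀ : ℝ)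
    (h2 : a ^ 2 + c ^ 2 ≤ 4 * ρ ^ 2 * (a * d - b * c) ^ 2) :
    ∃ f h : ℝ → ℂ, GaborIn ρ x₀ w₀ f ∧ GaborIn ρ x₀ w₀ h ∧ SameSamples a b c d f h ∧
      ¬ PhaseEq f h := by
  obtain ⟨D, hD⟩ : ∃ D : ℝ, D = a * d - b * c := ⟨_, rfl⟩
  obtain ⟨s, hs⟩ : ∃ s : Fin 2 → ℝ, s = ![x₀ + a / (2 * (a * d - b * c)), x₀ - a / (2 * (a * d - b * c))] := ⟨_, rfl⟩
  obtain ⟨w, hw⟩ : ∃ w : Fin 2 → ℝ, w = ![w₀ + c / (2 * (a * d - b * c)), w₀ - c / (2 * (a * d - b * c))] := ⟨_, rfl⟩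
  obtain ⟨e, he⟩ := exists_gab (![1 + Complex.I, 1 - Complex.I] : Fin 2 → ℂ) s w
  obtain ⟨e', he'⟩ := exists_gab (![1 - Complex.I, 1 + Complex.I] : Fin 2 → ℂ) s w
  have hr : (a / (2 * (a * d - b * c))) ^ 2 + (c / (2 * (a * d - b * c))) ^ 2 ≤ ρ ^ 2 := by
    rw [← hD] at hdet h2 ⊢
    have h3 : 0 < D ^ 2 := by positivity
    rw [div_pow, div_pow, ← add_div, div_le_iff₀ (by positivity)]
    nlinarith
  have hsw : ∀ i, (s i - x₀) ^ 2 + (w i - w₀) ^ 2 ≤ ρ ^ 2 := by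
    intro i
    rw [hs, hw]
    fin_cases i
    · show (x₀ + a / (2 * (a * d - b * c)) - x₀) ^ 2 + (w₀ + c / (2 * (a * d - b * c)) - w₀) ^ 2 ≤ ρ ^ 2
      refine le_trans (le_of_eq ?_) hr
      ring
    · show (x₀ - a / (2 * (a * d - b * c)) - x₀) ^ 2 + (w₀ - c / (2 * (a * d - b * c)) - w₀) ^ 2 ≤ ρ ^ 2
      refine le_trans (le_of_eq ?_) hr
      ring
  exact ⟨gab e s w, gab e' s w, ⟨2, e, s, w, hsw, fun t => rfl⟩, ⟨2, e', s, w, hsw, fun t => rfl⟩,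
    counter_samples hdet x₀ w₀ hs hw he he', counter_ne hdet x₀ w₀ hs hw he he'⟩

/-- (X3c, S) PROOF. `exists_counter` (with `gaborSum_memLp`) and `gaborIn_unique`: from `a ^ 2 + c ^ 2 ≤ |D|` and
`4 ρ ^ 2 D ^ 2 < a ^ 2 + c ^ 2 ≤ |D|`: `4 ρ ^ 2 |D| < 1`, so `4 ρ ^ 2 (a ^ 2 + c ^ 2) < 1`. -/
theorem critical_radius {a b c d ρ : ℝ} (hdet : a * d - b * c ≠ 0) (x₀ w₀ : ℝ)
    (hD : DenseWithin (1 / 8) a b c d) (hρ : 0 ≤ ρ) (hac : a ^ 2 + c ^ 2 ≤ |a * d - b * c|) :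
    4 * ρ ^ 2 * (a * d - b * c) ^ 2 < a ^ 2 + c ^ 2 ↔ ∀ f h : ℝ → ℂ, GaborIn ρ x₀ w₀ f →
      MemLp h 2 volume → SameSamples a b c d f h → PhaseEq f h := by
  constructor
  · intro h f h' hf hh H
    refine gaborIn_unique hdet hD hρ ?_ h hf hh H
    have hA : 0 < |a * d - b * c| := abs_pos.2 hdet
    rw [← sq_abs (a * d - b * c)] at h
    obtain ⟨A, hAd⟩ : ∃ A : ℝ, A = |a * d - b * c| := ⟨_, rfl⟩
    rw [← hAd] at hA h hac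
    have h3 : 4 * ρ ^ 2 * A * A < 1 * A := by nlinarith
    have h4 : 4 * ρ ^ 2 * A < 1 := lt_of_mul_lt_mul_right h3 hA.le
    have h5 : 4 * ρ ^ 2 * (a ^ 2 + c ^ 2) ≤ 4 * ρ ^ 2 * A := mul_le_mul_of_nonneg_left hac (by positivity)
    linarith
  · intro h
    by_contra hcon
    obtain ⟨f, h', hf, hh, H, hne⟩ := exists_counter hdet x₀ w₀ (not_lt.1 hcon)
    refine hne (h f h' hf ?_ H)
    obtain ⟨n, e, s, w, -, hfe⟩ := hh
    exact (gaborSum_memLp ⟨n, e, s, w, hfe⟩).2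

end H12L
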